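import Pool.Agent.MP_1ba41f_an.S2.W.CV.CSpec
import Pool.Agent.MP_1ba41f_an.S2.CV.Dir

/-! The directions at the encounters, for a general ratio of the small masses. -/

set_option autoImplicit false

noncomputable section
open Set Complex Filter Topology
open scoped ComplexConjugate

namespace Pool.Agent.MP_1ba41f_an.S2.W.CV

open S2.CV (T2 T3 U2 U3 Syn Q1 Dirs)
open S2.CV.Dir (un un_re un_im rt_pos un_pos un_conj un_norm sq_re sq_ofReal c_sq cp_re cp_im p_eqs)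

namespace Dir

open AlgA

/-- strict inequalities persist with a margin -/
lemma persist {Y : Type} [TopologicalSpace Y] {S : Set Y} (hS : IsCompact S) {f g : ℝ → Y → ℝ}
    (hf : Continuous fun w : ℝ × Y => f w.1 w.2) (hg : Continuous fun w : ℝ × Y => g w.1 w.2)
    (h : ∀ y ∈ S, 0 < f 1 y) :
    ∀ᶠ z : ℝ × ℝ in 𝓝 (0, 1), ∀ y ∈ S, z.1 * g z.2 y < f z.2 y := by
  refine hS.eventually_forall_of_forall_eventually
    (P := fun (z : ℝ × ℝ) y => z.1 * g z.2 y < f z.2 y) fun y hy => ?_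
  have c : Continuous fun w : (ℝ × ℝ) × Y => (w.1.2, w.2) := by fun_prop
  have c1 : Continuous fun w : (ℝ × ℝ) × Y => w.1.1 * g w.1.2 w.2 :=
    (continuous_fst.comp continuous_fst).mul (hg.comp c)
  refine (isOpen_lt c1 (hf.comp c)).mem_nhds ?_
  simpa using h y hy

/-- the unit circle -/
def Cir : Set (ℝ × ℝ) := range fun φ : ℝ => (Real.cos φ, Real.sin φ)

lemma cir_cpt : IsCompact Cir :=
  Function.Periodic.compact_of_continuous (c := 2 * Real.pi)
    (fun φ => by simp only [Real.cos_add_two_pi, Real.sin_add_two_pi])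
    Real.two_pi_pos.ne' (by fun_prop)

lemma sH_eq {k s : ℝ} (hs : 0 < s) (P K t : ℝ) :
    ((I * sq (un k P)) ^ 2 * (t * (sq (un s K)).re + I * (sq (un s K)).im) ^ 2).re =
      (k * (√(s ^ 2 + K ^ 2) - s - t ^ 2 * (√(s ^ 2 + K ^ 2) + s)) + 2 * t * P * K) /
        (2 * (√(k ^ 2 + P ^ 2) * √(s ^ 2 + K ^ 2))) := by
  obtain ⟨a1, a2, a3⟩ := p_eqs hs K
  have N0 := rt_pos hs K
  generalize (sq (un s K)).re = p1 at *
  generalize (sq (un s K)).im = p2 at *
  have e : ((I * sq (un k P)) ^ 2 * ((t : ℂ) * p1 + I * p2) ^ 2).re =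
      (k * (p2 ^ 2 - t ^ 2 * p1 ^ 2) - t * P * (2 * p1 * p2)) / √(k ^ 2 + P ^ 2) := by
    rw [c_sq, mul_re, neg_re, neg_im, un_re, un_im, pow_two ((t : ℂ) * p1 + I * p2), mul_re, mul_im]
    simp only [add_re, add_im, mul_re, mul_im, ofReal_re, ofReal_im, I_re, I_im]
    ring
  have b1 : p1 ^ 2 = (1 + s / √(s ^ 2 + K ^ 2)) / 2 := by linarith
  have b2 : p2 ^ 2 = (1 - s / √(s ^ 2 + K ^ 2)) / 2 := by linarith
  rw [e, a3, b1, b2]
  generalize √(s ^ 2 + K ^ 2) = N at *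
  generalize √(k ^ 2 + P ^ 2) = n
  rcases eq_or_ne n 0 with rfl | hn
  · simp
  · field_simp
    ring

lemma mx_ne (M : ℝ) : max M (1 / 2) ≠ 0 := (lt_max_of_lt_right (by norm_num)).ne'

lemma mx1 : max (1 : ℝ) (1 / 2) = 1 := max_eq_left (by norm_num)

lemma lo {X n g : ℝ} (h0 : 0 < n) (h : g * n < X) : g ≤ X / n := by
  rw [le_div_iff₀ h0]; exact h.le

lemma hi {X n g : ℝ} (h0 : 0 < n) (h : g * n < -X) : X / n ≤ -g := by
  rw [div_le_iff₀ h0]; linarith

variable [Lam]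

def kM (M : ℝ) : ℝ := fK (max M (1 / 2)) He
def dM (M : ℝ) : ℝ := fD (max M (1 / 2)) He
def qM (M x : ℝ) : ℝ := √(fq (max M (1 / 2)) He x)
def PM (M : ℝ) (z : ℝ × ℝ) : ℝ := He * z.2 * qM M z.1 / 2
def KM (M x : ℝ) : ℝ :=
  ((4 - dM M - (M - lam + He * x) ^ 2) / 2 - 2 * (1 - lam) + (1 - lam) * (M - lam + He * x)) /
    (1 + lam)
def nM (M : ℝ) (z : ℝ × ℝ) : ℝ := √(kM M ^ 2 + PM M z ^ 2)
def NM (M x : ℝ) : ℝ := √(√(dM M) ^ 2 + KM M x ^ 2)

lemma c_k : Continuous kM := by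
  unfold kM fK fN fD; fun_prop (disch := exact fun _ => mx_ne _)
lemma c_d : Continuous dM := by
  unfold dM fD; fun_prop (disch := exact fun _ => mx_ne _)
lemma c_q : Continuous fun w : ℝ × ℝ × ℝ => qM w.1 w.2.1 := by
  unfold qM fq fN; fun_prop (disch := exact fun _ => mx_ne _)
lemma c_P : Continuous fun w : ℝ × ℝ × ℝ => PM w.1 w.2 := by
  unfold PM; exact ((continuous_const.mul (by fun_prop)).mul c_q).div_const _
lemma c_K : Continuous fun w : ℝ × ℝ × ℝ => KM w.1 w.2.1 := by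
  have := c_d
  unfold KM; fun_prop
lemma c_n : Continuous fun w : ℝ × ℝ × ℝ => nM w.1 w.2 :=
  (((c_k.comp continuous_fst).pow 2).add (c_P.pow 2)).sqrt
lemma c_s : Continuous fun w : ℝ × ℝ × ℝ => √(dM w.1) := (c_d.comp continuous_fst).sqrt
lemma c_N : Continuous fun w : ℝ × ℝ × ℝ => NM w.1 w.2.1 :=
  ((c_s.pow 2).add (c_K.pow 2)).sqrt

lemma K_eq (h2 : He ^ 2 = (1 + lam) ^ 2 - (6 / 5 * lam) ^ 2) (M x : ℝ) :
    2 * (1 + lam) * KM M x =
      He ^ 2 - (He * x - (1 - M)) ^ 2 - (dM M - (6 / 5 * lam) ^ 2) := by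
  have : 0 < 1 + lam := by linarith [lam_pos]
  rw [KM, h2]; field_simp; ring

lemma d1 (h2 : He ^ 2 = (1 + lam) ^ 2 - (6 / 5 * lam) ^ 2) : dM 1 = (6 / 5 * lam) ^ 2 := by
  rw [dM, mx1, fD, h2]; ring

lemma s1 (h2 : He ^ 2 = (1 + lam) ^ 2 - (6 / 5 * lam) ^ 2) : √(dM 1) = 6 / 5 * lam := by
  rw [d1 h2, Real.sqrt_sq (by linarith [lam_pos])]

lemma k1 (h2 : He ^ 2 = (1 + lam) ^ 2 - (6 / 5 * lam) ^ 2) : kM 1 = sm * (6 / 5 * lam) := by
  have := lam_pos
  have := sm_ge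
  rw [kM, mx1, fK, ← Real.sqrt_sq (x := sm * (6 / 5 * lam)) (by positivity), mul_pow, sm_sq]
  congr 1
  rw [fN, fD, one_pow, h2]; ring

lemma K1 (h2 : He ^ 2 = (1 + lam) ^ 2 - (6 / 5 * lam) ^ 2) (x : ℝ) :
    2 * (1 + lam) * KM 1 x = He ^ 2 - (He * x) ^ 2 := by
  rw [K_eq h2, d1 h2]; ring

lemma q1 (h0 : Fam0Stmt) (φ : ℝ) : 0 < qM 1 (Real.cos φ) ∧ qM 1 (Real.cos φ) ^ 2 =
    (1 + He * Real.cos φ) ^ 2 + 2 * (1 + He * Real.cos φ) + 4 * lam + 1 - He ^ 2 := by
  obtain ⟨-, hHe, -, h1⟩ := h0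
  have := lam_pos
  have h := (h1 1 ⟨by linarith [dl_pos], le_rfl⟩ He ⟨hHe.le, le_rfl⟩).2.2.2.1 _
    ⟨Real.neg_one_le_cos φ, Real.cos_le_one φ⟩
  have h' : 0 < fq 1 He (Real.cos φ) := lt_of_lt_of_le (by positivity) h
  rw [qM, mx1]
  exact ⟨Real.sqrt_pos.2 h', by rw [Real.sq_sqrt h'.le, fq, fN]; ring⟩

lemma w2 (φ : ℝ) : (He * Real.sin φ) ^ 2 = He ^ 2 - (He * Real.cos φ) ^ 2 := by
  rw [mul_pow, Real.sin_sq]; ring

lemma K1n (h2 : He ^ 2 = (1 + lam) ^ 2 - (6 / 5 * lam) ^ 2) (φ : ℝ) : 0 ≤ KM 1 (Real.cos φ) := by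
  have h := K1 h2 (Real.cos φ)
  rw [← w2] at h
  have : 0 < 2 * (1 + lam) := by linarith [lam_pos]
  exact (mul_nonneg_iff_of_pos_left this).1 (h ▸ sq_nonneg _)

lemma jun1 (h0 : Fam0Stmt) (φ : ℝ) :
    0 < qM 1 (Real.cos φ) * √(dM 1) * (1 + lam) + kM 1 * (He * Real.sin φ) := by
  obtain ⟨a1, a2⟩ := q1 h0 φ
  have h2 := h0.2.2.1
  have l0 := lam_pos
  have b : (sm * (He * Real.sin φ)) ^ 2 < (qM 1 (Real.cos φ) * (1 + lam)) ^ 2 := by
    rw [mul_pow, mul_pow (qM _ _), w2, a2, sm_sq]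
    have e : ((1 + He * Real.cos φ) ^ 2 + 2 * (1 + He * Real.cos φ) + 4 * lam + 1 - He ^ 2) *
        (1 + lam) ^ 2 - (1 - lam ^ 2) * (He ^ 2 - (He * Real.cos φ) ^ 2) =
        (1 + lam) * (2 * (1 + He * Real.cos φ + lam) ^ 2 + 2 * (6 / 5 * lam) ^ 2) := by
      linear_combination (-2 * (1 + lam)) * h2
    have : 0 < (1 + lam) * (2 * (1 + He * Real.cos φ + lam) ^ 2 + 2 * (6 / 5 * lam) ^ 2) := by
      positivity
    linarith
  have c := (abs_lt_of_sq_lt_sq' b (by positivity)).1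
  rw [s1 h2, k1 h2]
  nlinarith

lemma He_ge (h0 : Fam0Stmt) : 1 + lam / 2 < He ∧ He ≤ 1 + lam := by
  obtain ⟨-, hHe, h2, -⟩ := h0
  have l0 := lam_pos
  have l1 := lam_le
  constructor
  · exact lt_of_pow_lt_pow_left₀ 2 hHe.le (by nlinarith)
  · exact (abs_le_of_sq_le_sq' (by nlinarith) (by linarith)).2

lemma cH (h0 : Fam0Stmt) : He * Real.cos pH = 13 / 5 * lam - 1 := by
  have hHe := h0.2.1
  have := He_ge h0
  have l0 := lam_pos
  have l1 := lam_le
  rw [pH, Real.cos_arccos (by rw [le_div_iff₀ hHe]; linarith)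
    (by rw [div_le_iff₀ hHe]; linarith)]
  field_simp

lemma cB (h0 : Fam0Stmt) : He * Real.cos pB = -(lam / 2) - 1 := by
  have hHe := h0.2.1
  have := He_ge h0
  have l0 := lam_pos
  rw [pB, Real.cos_two_pi_sub, Real.cos_arccos (by rw [le_div_iff₀ hHe]; linarith)
    (by rw [div_le_iff₀ hHe]; linarith)]
  field_simp

lemma cos_jun (h0 : Fam0Stmt) {φ : ℝ} (hφ : φ ∈ Icc Real.pi pB) :
    He * Real.cos φ ≤ -(lam / 2) - 1 ∧ He * Real.sin φ ≤ 0 := by
  have hHe := h0.2.1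
  have b0 := Real.arccos_nonneg ((-(lam / 2) - 1) / He)
  have b1 : Real.arccos ((-(lam / 2) - 1) / He) ≤ 2 * Real.pi - φ := by
    have := hφ.2; unfold pB at this; linarith
  have b2 : 2 * Real.pi - φ ≤ Real.pi := by linarith [hφ.1]
  have c1 := Real.cos_le_cos_of_nonneg_of_le_pi b0 b2 b1
  have c2 := Real.sin_nonneg_of_nonneg_of_le_pi (b0.trans b1) b2
  have c3 := cB h0
  rw [pB, Real.cos_two_pi_sub] at c3
  rw [Real.cos_two_pi_sub] at c1
  rw [Real.sin_two_pi_sub] at c2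
  exact ⟨c3 ▸ mul_le_mul_of_nonneg_left c1 hHe.le, by nlinarith⟩

lemma hB : pB ∈ Icc Real.pi pB := by
  refine ⟨?_, le_rfl⟩
  unfold pB; linarith [Real.arccos_le_pi ((-(lam / 2) - 1) / He)]

lemma atH (h0 : Fam0Stmt) : PM 1 (Real.cos pH, Real.sin pH) = 18 / 5 * lam * sm ∧
    (1 + lam) * KM 1 (Real.cos pH) = 18 / 5 * lam * (1 - lam) := by
  obtain ⟨a1, a2⟩ := q1 h0 pH
  have hHe := h0.2.1
  have h2 := h0.2.2.1
  have l0 := lam_pos
  have := sm_ge
  have b1 : 0 ≤ Real.sin pH :=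
    Real.sin_nonneg_of_nonneg_of_le_pi (Real.arccos_nonneg _) (Real.arccos_le_pi _)
  have b2 := K1 h2 (Real.cos pH)
  rw [cH h0, h2] at b2 a2
  refine ⟨?_, by linarith⟩
  refine (pow_left_inj₀ (n := 2) (by unfold PM; positivity) (by positivity) two_ne_zero).1 ?_
  simp only [PM]
  rw [div_pow, mul_pow, w2, a2, cH h0, h2, mul_pow _ sm, sm_sq]
  ring

/-- the inequalities that persist near `M = 1` -/
structure Good (γ M : ℝ) : Prop where
  bot : ∀ z ∈ Cir, γ * nM M z < kM M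
  low : ∀ z ∈ Cir, γ * (nM M z * NM M z.1) < kM M
  sH1 : ∀ t ∈ Icc (0 : ℝ) 1,
    γ * (2 * (nM M (Real.cos pH, Real.sin pH) * NM M (Real.cos pH))) <
      kM M * (NM M (Real.cos pH) - √(dM M) - t ^ 2 * (NM M (Real.cos pH) + √(dM M))) +
        2 * t * PM M (Real.cos pH, Real.sin pH) * KM M (Real.cos pH)
  sH2 : ∀ z ∈ ({(Real.cos pH, Real.sin pH)} : Set (ℝ × ℝ)),
    γ * (nM M z * NM M z.1) < PM M z * √(dM M) + kM M * KM M z.1
  jun : ∀ z ∈ Cir, γ * 0 < qM M z.1 * √(dM M) * (1 + lam) + kM M * (He * z.2)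
  sB1 : ∀ z ∈ ({(Real.cos pB, Real.sin pB)} : Set (ℝ × ℝ)),
    γ * (nM M z * NM M z.1) < -(PM M z * KM M z.1 - kM M * √(dM M))
  sB2 : ∀ z ∈ ({(Real.cos pB, Real.sin pB)} : Set (ℝ × ℝ)),
    γ * (nM M z * NM M z.1) < -(PM M z * √(dM M) + kM M * KM M z.1)
  top : ∀ z ∈ Cir, γ * (nM M z * NM M z.1) <
    max (-(PM M z * KM M z.1 - kM M * √(dM M))) (PM M z * √(dM M) + kM M * KM M z.1)
  rr : ∀ w ∈ Icc (-He) (13 / 5 * lam - 1), γ * 0 < 2 - dM M - (M - lam + w) ^ 2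

lemma good (h0 : Fam0Stmt) : ∀ᶠ z : ℝ × ℝ in 𝓝 (0, 1), Good z.1 z.2 := by
  have hHe := h0.2.1
  have h2 := h0.2.2.1
  have l0 := lam_pos
  have l1 := lam_le
  have m0 := sm_ge
  have hk : 0 < kM 1 := by rw [k1 h2]; positivity
  have hs : 0 < √(dM 1) := by rw [s1 h2]; positivity
  have ck : Continuous fun w : ℝ × ℝ × ℝ => kM w.1 := c_k.comp continuous_fst
  have cn := c_n.mul c_N
  have cr := (c_P.mul c_K).sub (ck.mul c_s)
  have ci := (c_P.mul c_s).add (ck.mul c_K)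
  obtain ⟨eP, eK⟩ := atH h0
  have KH : 0 < KM 1 (Real.cos pH) := by
    have : 0 < 18 / 5 * lam * (1 - lam) := mul_pos (by linarith) (by linarith)
    exact (mul_pos_iff_of_pos_left (by linarith)).1 (eK ▸ this)
  have yB : He * Real.sin pB < 0 := by
    refine lt_of_le_of_ne (cos_jun h0 hB).2 fun h => ?_
    have := w2 pB
    rw [h, cB h0, h2] at this
    nlinarith
  have ch : Continuous fun w : ℝ × ℝ => (w.1, Real.cos pH, Real.sin pH) := by fun_prop
  have e1 := persist cir_cpt (f := fun M _ => kM M) (g := nM) ck c_n fun _ _ => hk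
  have e2 := persist cir_cpt (f := fun M _ => kM M) (g := fun M z => nM M z * NM M z.1) ck cn
    fun _ _ => hk
  have e3 := persist (isCompact_Icc (a := (0 : ℝ)) (b := 1))
    (f := fun M t => kM M * (NM M (Real.cos pH) - √(dM M) - t ^ 2 * (NM M (Real.cos pH) + √(dM M)))
      + 2 * t * PM M (Real.cos pH, Real.sin pH) * KM M (Real.cos pH))
    (g := fun M _ => 2 * (nM M (Real.cos pH, Real.sin pH) * NM M (Real.cos pH)))
    (((ck.comp ch).mul (((c_N.comp ch).sub (c_s.comp ch)).sub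
      ((continuous_snd.pow 2).mul ((c_N.comp ch).add (c_s.comp ch))))).add
      (((continuous_const.mul continuous_snd).mul (c_P.comp ch)).mul (c_K.comp ch)))
    (continuous_const.mul (cn.comp ch)) fun t ht => by
      have a1 : √(dM 1) < NM 1 (Real.cos pH) := Real.lt_sqrt_of_sq_lt (by nlinarith)
      have a2 : kM 1 * √(dM 1) < PM 1 (Real.cos pH, Real.sin pH) * KM 1 (Real.cos pH) := by
        rw [eP, k1 h2, s1 h2]
        refine lt_of_mul_lt_mul_left (a := 1 + lam) ?_ (by linarith)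
        have : 0 < sm * lam ^ 2 * (8 - 10 * lam) := mul_pos (by positivity) (by linarith)
        have e : (1 + lam) * (18 / 5 * lam * sm * KM 1 (Real.cos pH)) =
            (1 + lam) * (sm * (6 / 5 * lam) * (6 / 5 * lam)) +
              36 / 25 * (sm * lam ^ 2 * (8 - 10 * lam)) := by
          linear_combination (18 / 5 * lam * sm) * eK
        linarith
      generalize NM 1 (Real.cos pH) = N at *
      have a3 : 0 ≤ kM 1 * (t * (1 - t) * (N + √(dM 1))) :=
        mul_nonneg hk.le (mul_nonneg (mul_nonneg ht.1 (by linarith [ht.2])) (by linarith))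
      have a4 := mul_pos hk (sub_pos.2 a1)
      have a5 := sub_pos.2 a2
      rcases le_total t (1 / 2) with h | h
      · linarith [mul_nonneg (sub_nonneg.2 h) a4.le, mul_nonneg ht.1 a5.le]
      · linarith [mul_nonneg (sub_nonneg.2 h) a5.le, mul_nonneg (sub_nonneg.2 ht.2) a4.le]
  have e4 := persist (isCompact_singleton (x := (Real.cos pH, Real.sin pH)))
    (f := fun M z => PM M z * √(dM M) + kM M * KM M z.1) (g := fun M z => nM M z * NM M z.1)
    ci cn fun z hz => by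
      rw [mem_singleton_iff.1 hz, eP]
      positivity
  have e5 := persist cir_cpt (f := fun M z => qM M z.1 * √(dM M) * (1 + lam) + kM M * (He * z.2))
    (g := fun _ _ => 0) (((c_q.mul c_s).mul continuous_const).add (ck.mul (by fun_prop)))
    continuous_const (by rintro _ ⟨φ, rfl⟩; exact jun1 h0 φ)
  have e6 := persist (isCompact_singleton (x := (Real.cos pB, Real.sin pB)))
    (f := fun M z => -(PM M z * KM M z.1 - kM M * √(dM M))) (g := fun M z => nM M z * NM M z.1)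
    cr.neg cn fun z hz => by
      rw [mem_singleton_iff.1 hz]
      have a1 : PM 1 (Real.cos pB, Real.sin pB) ≤ 0 := by
        simp only [PM]; nlinarith [(q1 h0 pB).1]
      nlinarith [mul_nonneg (neg_nonneg.2 a1) (K1n h2 pB), mul_pos hk hs]
  have e7 := persist (isCompact_singleton (x := (Real.cos pB, Real.sin pB)))
    (f := fun M z => -(PM M z * √(dM M) + kM M * KM M z.1)) (g := fun M z => nM M z * NM M z.1)
    ci.neg cn fun z hz => by
      rw [mem_singleton_iff.1 hz]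
      have a1 := K1 h2 (Real.cos pB)
      rw [← w2] at a1
      have a2 := mul_pos (neg_pos.2 yB) (jun1 h0 pB)
      refine lt_of_mul_lt_mul_left (a := 2 * (1 + lam)) ?_ (by linarith)
      simp only [PM]
      nlinarith
  have e8 := persist cir_cpt
    (f := fun M z => max (-(PM M z * KM M z.1 - kM M * √(dM M))) (PM M z * √(dM M) + kM M * KM M z.1))
    (g := fun M z => nM M z * NM M z.1) (cr.neg.max ci) cn (by
      rintro _ ⟨φ, rfl⟩
      have a1 := K1n h2 φ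
      rcases le_or_gt (PM 1 (Real.cos φ, Real.sin φ)) 0 with h | h
      · exact lt_max_of_lt_left
          (by nlinarith [mul_nonneg (neg_nonneg.2 h) a1, mul_pos hk hs])
      · exact lt_max_of_lt_right (by positivity))
  have e9 := persist (isCompact_Icc (a := -He) (b := 13 / 5 * lam - 1))
    (f := fun M w => 2 - dM M - (M - lam + w) ^ 2) (g := fun _ _ => 0)
    (by have := c_d; fun_prop) continuous_const fun w hw => by
      rw [d1 h2]
      have a1 := (He_ge h0).2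
      have a2 : (1 - lam + w) ^ 2 ≤ (2 * lam) ^ 2 :=
        sq_le_sq' (by linarith [hw.1]) (by linarith [hw.2])
      nlinarith
  filter_upwards [e1, e2, e3, e4, e5, e6, e7, e8, e9] with z a1 a2 a3 a4 a5 a6 a7 a8 a9
  exact ⟨a1, a2, a3, a4, a5, a6, a7, a8, a9⟩

lemma eb_eq (h0 : Fam0Stmt) {M : ℝ} (hM : M ∈ Icc (1 - dl) 1) (σ τ φ : ℝ) (hτ : τ ^ 2 = 1) :
    eb σ τ (fK M He) (r2c (fx M He φ)) =
      io σ * sq (un (kM M) (PM M (Real.cos φ, Real.sin φ))) *
        sq (un (√(dM M)) (τ * KM M (Real.cos φ))) := by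
  obtain ⟨-, hHe, -, h1⟩ := h0
  obtain ⟨-, -, d0, -, h2⟩ := h1 M hM He ⟨hHe.le, le_rfl⟩
  obtain ⟨-, e1, e2, -⟩ := h2 φ
  have mx : max M (1 / 2) = M := max_eq_left (by linarith [hM.1, dl_le])
  have ek : kM M = fK M He := by rw [kM, mx]
  have ed : dM M = fD M He := by rw [dM, mx]
  have eP : PM M (Real.cos φ, Real.sin φ) = (fx M He φ).2 := by simp only [PM, qM, mx, fx]
  have hD : 0 ≤ fD M He := (sq_nonneg _).trans d0
  have e4 : bK (fK M He) (r2c (fx M He φ)) = KM M (Real.cos φ) := by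
    rw [bK, e1, KM, ed]
    simp only [r2c, fx]
    push_cast
    ring
  have e5 : bs (fK M He) (r2c (fx M He φ)) = (√(fD M He) : ℝ) := by rw [bs, e2, sq_ofReal hD]
  have e6 : sq ((fD M He : ℂ) + (KM M (Real.cos φ) : ℂ) ^ 2) =
      (√(√(fD M He) ^ 2 + (τ * KM M (Real.cos φ)) ^ 2) : ℝ) := by
    rw [← sq_ofReal (by positivity), Real.sq_sqrt hD, mul_pow, hτ, one_mul]
    push_cast
    rfl
  have e7 : sq ((fK M He : ℂ) ^ 2 + (r2c (fx M He φ)).2 ^ 2) =
      (√(fK M He ^ 2 + (fx M He φ).2 ^ 2) : ℝ) := by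
    rw [← sq_ofReal (by positivity)]
    push_cast
    rfl
  rw [ek, ed, eP]
  unfold eb un
  rw [e4, e5, e2, e6, e7, ofReal_mul, mul_assoc I]
  rfl

end Dir

open Dir AlgA in
theorem dirS [Lam] (h0 : Fam0Stmt) : DirStmt := by
  obtain ⟨ε, hε, hg⟩ := Metric.eventually_nhds_iff.1 (good h0)
  refine ⟨min (ε / 2) dl, ε / 2, lt_min (half_pos hε) dl_pos, half_pos hε, fun Mb hMb =>
    ⟨ε / 2 * (1 - Mb) / 8, by have := sub_pos.2 hMb; positivity, fun M hM => ?_⟩⟩
  have M1 : M < 1 := hM.2.trans_lt hMb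
  have M0 : M ∈ Icc (1 - dl) 1 := ⟨by linarith [hM.1, min_le_right (ε / 2) dl], M1.le⟩
  have G : Good (ε / 2) M := @hg (ε / 2, M) (by
    rw [Prod.dist_eq, max_lt_iff, Real.dist_eq, Real.dist_eq, abs_lt, abs_lt]
    have := min_le_left (ε / 2) dl
    exact ⟨⟨by linarith, by linarith⟩, by linarith [hM.1], by linarith⟩)
  have hγ := half_pos hε
  generalize ε / 2 = γ at G hγ
  have hE := eb_eq h0 M0
  have hHe := h0.2.1
  have h2 := h0.2.2.1
  have l0 := lam_pos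
  have l1 := lam_le
  obtain ⟨k0, -, D0, -⟩ := h0.2.2.2 M M0 He ⟨hHe.le, le_rfl⟩
  have Mp : 1 / 2 ≤ M := by linarith [M0.1, dl_le]
  have ed : dM M = fD M He := by rw [dM, max_eq_left Mp]
  have hk : 0 < kM M := by rwa [kM, max_eq_left Mp]
  have hD : 0 < dM M := ed ▸ lt_of_lt_of_le (by positivity) D0
  have hs : 0 < √(dM M) := Real.sqrt_pos.2 hD
  have e0 : 1 - M ≤ dM M - (6 / 5 * lam) ^ 2 := by
    have a1 : 2 * lam ≤ 2 * lam / M := by rw [le_div_iff₀ (by linarith)]; nlinarith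
    rw [ed, fD, h2]; nlinarith
  have ci : ∀ φ, (Real.cos φ, Real.sin φ) ∈ Cir := fun φ => ⟨φ, rfl⟩
  have d0 : ∀ z : ℝ × ℝ, 0 < nM M z * NM M z.1 := fun z => mul_pos (rt_pos hk _) (rt_pos hs _)
  have KL : ∀ φ, He * Real.cos φ ≤ 0 →
      2 * (1 + lam) * KM M (Real.cos φ) ≤ (He * Real.sin φ) ^ 2 - (1 - M) := fun φ h => by
    rw [K_eq h2, w2]
    nlinarith [mul_nonneg (neg_nonneg.2 h) (sub_pos.2 M1).le]
  have bb : γ * (1 - Mb) ≤ γ * (1 - M) := mul_le_mul_of_nonneg_left (by linarith [hM.2]) hγ.le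
  refine ⟨fun φ => I * sq (un (kM M) (PM M (Real.cos φ, Real.sin φ))),
    fun φ => sq (un (√(dM M)) (KM M (Real.cos φ))),
    ⟨fun φ => ⟨?_, norm_sq_one (un_norm hs _), sq_re _⟩, fun φ => ?_, ⟨fun t ht => ?_, ?_⟩, ?_,
      fun φ h => ?_, ?_, fun φ => ?_⟩, fun φ => ?_⟩
  · rw [norm_mul, norm_I, one_mul, norm_sq_one (un_norm hk _)]
  · rw [c_sq, neg_re, un_re, neg_le_neg_iff]
    exact lo (rt_pos hk _) (G.bot _ (ci φ))
  · rw [sH_eq hs]
    exact lo (mul_pos two_pos (d0 (Real.cos pH, Real.sin pH))) (G.sH1 t ht)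
  · rw [cp_im]
    exact lo (d0 (Real.cos pH, Real.sin pH)) (G.sH2 _ rfl)
  · have a1 : PM M (Real.cos Real.pi, Real.sin Real.pi) = 0 := by
      simp only [PM, Real.sin_pi]; ring
    constructor
    · rw [c_sq, a1]
      apply Complex.ext
      · rw [neg_re, un_re, zero_pow two_ne_zero, add_zero, Real.sqrt_sq hk.le, div_self hk.ne']
        simp
      · rw [neg_im, un_im]; simp
    · obtain ⟨b1, -, b3⟩ := p_eqs hs (KM M (Real.cos Real.pi))
      have b4 := sq_re (un (√(dM M)) (KM M (Real.cos Real.pi)))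
      have b5 := KL Real.pi (by rw [Real.cos_pi]; linarith)
      have b6 := G.low _ (ci Real.pi)
      rw [nM, a1, zero_pow two_ne_zero, add_zero, Real.sqrt_sq hk.le] at b6
      have b7 : γ * NM M (Real.cos Real.pi) < 1 := lt_of_mul_lt_mul_left (a := kM M)
        (by linarith) hk.le
      have N0 : 0 < NM M (Real.cos Real.pi) := rt_pos hs _
      rw [Real.sin_pi] at b5
      have b8 : (1 - M) / 4 ≤ -KM M (Real.cos Real.pi) := by nlinarith
      have b9 : γ * (1 - M) / 4 ≤ -KM M (Real.cos Real.pi) / NM M (Real.cos Real.pi) := by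
        rw [le_div_iff₀ N0]
        nlinarith
      rw [NM, ← b3] at b9
      generalize (sq (un (√(dM M)) (KM M (Real.cos Real.pi)))).re = p1 at *
      generalize (sq (un (√(dM M)) (KM M (Real.cos Real.pi)))).im = p2 at *
      have c1 : p1 ≤ 1 := by nlinarith only [sq_nonneg p2, b1, b4]
      have c2 := mul_pos hγ (sub_pos.2 M1)
      have c3 : 0 ≤ p2 := by
        by_contra hn
        nlinarith only [mul_nonneg b4 (neg_nonneg.2 (not_le.1 hn).le), b9, c2]
      linarith only [mul_le_of_le_one_left c3 c1, b9, bb]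
  · rw [cp_im]
    obtain ⟨a1, a2⟩ := cos_jun h0 h
    have a3 := mul_le_mul_of_nonneg_left (KL φ (by linarith)) hk.le
    have a4 := G.jun _ (ci φ)
    rw [mul_zero] at a4
    have a5 := mul_nonneg (neg_nonneg.2 a2) a4.le
    have a6 : 2 * (1 + lam) * (PM M (Real.cos φ, Real.sin φ) * √(dM M) +
        kM M * KM M (Real.cos φ)) ≤ -(kM M * (1 - M)) := by
      simp only [PM] at a5 ⊢
      linarith
    have a7 := mul_pos hk (sub_pos.2 M1)
    have a8 : PM M (Real.cos φ, Real.sin φ) * √(dM M) + kM M * KM M (Real.cos φ) ≤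
        -(kM M * (1 - M)) / 4 := by nlinarith
    have a9 := mul_lt_mul_of_pos_right (G.low _ (ci φ)) (sub_pos.2 M1)
    have b1 := mul_le_mul_of_nonneg_right bb (d0 (Real.cos φ, Real.sin φ)).le
    refine hi (d0 (Real.cos φ, Real.sin φ)) ?_
    simp only [nM, NM] at a9 b1
    linarith
  · rw [cp_re, cp_im]
    exact ⟨hi (d0 (Real.cos pB, Real.sin pB)) (G.sB1 _ rfl),
      hi (d0 (Real.cos pB, Real.sin pB)) (G.sB2 _ rfl)⟩
  · rw [cp_re, cp_im]
    exact (lt_max_iff.1 (G.top _ (ci φ))).imp (hi (d0 (Real.cos φ, Real.sin φ)))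
      (lo (d0 (Real.cos φ, Real.sin φ)))
  · have m1 : PM M (Real.cos (-φ), Real.sin (-φ)) = -PM M (Real.cos φ, Real.sin φ) := by
      simp only [PM, Real.sin_neg, Real.cos_neg]; ring
    have i1 : io 1 = I := if_pos rfl
    have i2 : io (-1) = 1 := if_neg (by norm_num)
    have c1 : ∀ y, sq (un (kM M) (-y)) = conj (sq (un (kM M) y)) := fun y => by
      rw [sq_conj (un_pos hk y), un_conj]
    have c2 : ∀ y, sq (un (√(dM M)) (-y)) = conj (sq (un (√(dM M)) y)) := fun y => by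
      rw [sq_conj (un_pos hs y), un_conj]
    refine ⟨?_, ?_, ?_, ?_, fun h => ?_⟩
    · rw [hE 1 1 φ (by norm_num), i1, one_mul]
    · rw [hE 1 (-1) φ (by norm_num), i1, neg_one_mul, c2]
    · rw [hE (-1) (-1) (-φ) (by norm_num), i2, neg_one_mul, m1, Real.cos_neg, c1, c2, map_mul,
        map_mul, conj_I]
      linear_combination (conj (sq (un (kM M) (PM M (Real.cos φ, Real.sin φ)))) *
        conj (sq (un (√(dM M)) (KM M (Real.cos φ))))) * I_mul_I
    · rw [hE (-1) 1 (-φ) (by norm_num), i2, one_mul (KM M _), m1, Real.cos_neg, c1, map_mul,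
        map_mul, conj_I, conj_conj]
      linear_combination (conj (sq (un (kM M) (PM M (Real.cos φ, Real.sin φ)))) *
        sq (un (√(dM M)) (KM M (Real.cos φ)))) * I_mul_I
    · have a1 : He * Real.cos φ ≤ 13 / 5 * lam - 1 := by
        rcases le_total φ Real.pi with h' | h'
        · rw [← cH h0]
          exact mul_le_mul_of_nonneg_left (Real.cos_le_cos_of_nonneg_of_le_pi
            (Real.arccos_nonneg _) h' h.1) hHe.le
        · linarith [(cos_jun h0 ⟨h', h.2⟩).1]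
      have a2 := G.rr (He * Real.cos φ) ⟨by nlinarith [Real.neg_one_le_cos φ], a1⟩
      have a3 : (fx M He φ).1 = (4 - fD M He - (M - lam + He * Real.cos φ) ^ 2) / 2 := rfl
      rw [a3, ← ed]
      constructor <;> linarith [sq_nonneg (M - lam + He * Real.cos φ)]

end Pool.Agent.MP_1ba41f_an.S2.W.CV
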