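import Pool.Agent.MP_1ba41f_an.S2.W.CV.CSpec

/-! Closed forms and identities on the largest circle. -/

set_option autoImplicit false

noncomputable section
open Set Complex
open scoped ComplexConjugate

namespace Pool.Agent.MP_1ba41f_an.S2.W.CV

open S2.CV (T2 T3 U2 U3 Syn Q1 Dirs)

namespace G12

theorem sq_real {D : ℝ} (h : 0 ≤ D) : sq (D : ℂ) = (√D : ℝ) := by
  rw [sq, Real.sqrt_eq_rpow, ofReal_cpow h]
  norm_num

variable [Lam]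

theorem s_pos : 0 < 6 / 5 * lam := by linarith [lam_pos]

theorem he_sq : He ^ 2 = (1 + lam) ^ 2 - (6 / 5 * lam) ^ 2 :=
  Real.sq_sqrt (by nlinarith [lam_pos, lam_le])

theorem fD_eq : fD 1 He = (6 / 5 * lam) ^ 2 := by
  rw [fD, he_sq]; ring

theorem fK_eq : fK 1 He = sm * (6 / 5 * lam) := by
  rw [fK, fN, fD_eq, he_sq, ← Real.sqrt_sq (mul_nonneg (by linarith [sm_ge]) s_pos.le :
    0 ≤ sm * (6 / 5 * lam)), mul_pow sm, sm_sq]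
  congr 1
  ring

theorem gR_eq (φ : ℝ) : gR φ = (4 - (6 / 5 * lam) ^ 2 - gE φ ^ 2) / 2 := by
  simp only [gR, fx, fD_eq, gE]

theorem basic (h0 : Fam0Stmt) (φ : ℝ) :
    0 < gR φ ∧ bEta (sm * (6 / 5 * lam) : ℝ) (r2c (fx 1 He φ)) = gE φ ∧
      bs (sm * (6 / 5 * lam) : ℝ) (r2c (fx 1 He φ)) = (6 / 5 * lam : ℝ) ∧
      bD (sm * (6 / 5 * lam) : ℝ) (r2c (fx 1 He φ)) = ((6 / 5 * lam) ^ 2 : ℝ) := by
  obtain ⟨-, -, -, -, h⟩ := h0.2.2.2 1 ⟨by linarith [dl_pos], le_rfl⟩ He ⟨h0.2.1.le, le_rfl⟩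
  obtain ⟨a1, a2, a3, -⟩ := h φ
  rw [fK_eq] at a2 a3
  rw [fD_eq] at a3
  refine ⟨a1, ?_, ?_, a3⟩
  · rw [a2, gE]
  · rw [bs, a3, sq_real (sq_nonneg _), Real.sqrt_sq s_pos.le]

theorem quad (h0 : Fam0Stmt) (φ : ℝ) :
    2 * (gP φ ^ 2 + (sm * (6 / 5 * lam)) ^ 2) = gR φ * ((gE φ + 2 * lam) ^ 2 + (6 / 5 * lam) ^ 2) := by
  obtain ⟨a1, a2, -⟩ := basic h0 φ
  have e : (gP φ ^ 2 + (sm * (6 / 5 * lam)) ^ 2 + gR φ ^ 2 - 2 * (1 + lam ^ 2) * gR φ) / (2 * lam * gR φ) = gE φ := by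
    have : (((gP φ ^ 2 + (sm * (6 / 5 * lam)) ^ 2 + gR φ ^ 2 - 2 * (1 + lam ^ 2) * gR φ) / (2 * lam * gR φ) : ℝ) : ℂ) =
        gE φ := by
      rw [← a2, bEta, r2c, gP, gR]
      push_cast
      rfl
    exact_mod_cast this
  rw [div_eq_iff (by have := lam_pos; positivity)] at e
  linear_combination 2 * e - 2 * gR φ * gR_eq φ

theorem L_pos (φ : ℝ) : 0 < (gE φ + 2 * lam) ^ 2 + (6 / 5 * lam : ℝ) ^ 2 := by
  have := lam_pos
  positivity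

theorem G_mul (σ φ : ℝ) : gG σ φ * ((gE φ + 2 * lam) ^ 2 + (6 / 5 * lam) ^ 2) =
    2 * (sm * (6 / 5 * lam) * (gE φ + 2 * lam) + σ * (6 / 5 * lam) * gP φ) :=
  div_mul_cancel₀ _ (L_pos φ).ne'

theorem S_s (σ φ : ℝ) : gS σ φ * (6 / 5 * lam) = σ * (gE φ * gG σ φ - 2 * gG2 σ φ) :=
  div_mul_cancel₀ _ s_pos.ne'

theorem G2_eq {σ : ℝ} (h : σ ^ 2 = 1) (φ : ℝ) :
    gG2 σ φ = (gE φ * gG σ φ - σ * (6 / 5 * lam) * gS σ φ) / 2 := by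
  linear_combination σ / 2 * S_s σ φ + ((gE φ * gG σ φ - 2 * gG2 σ φ) / 2) * h

theorem S_mul {σ : ℝ} (h : σ ^ 2 = 1) (φ : ℝ) :
    gS σ φ * ((gE φ + 2 * lam) ^ 2 + (6 / 5 * lam) ^ 2) =
      2 * (gP φ * (gE φ + 2 * lam) - σ * (sm * (6 / 5 * lam)) * (6 / 5 * lam)) := by
  have e := S_s σ φ
  rw [gG2] at e
  refine mul_right_cancel₀ s_pos.ne' ?_
  linear_combination ((gE φ + 2 * lam) ^ 2 + (6 / 5 * lam) ^ 2) * e +
    (σ * (gE φ + 2 * lam)) * G_mul σ φ + 2 * (6 / 5 * lam) * gP φ * (gE φ + 2 * lam) * h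

theorem dat (h0 : Fam0Stmt) {σ : ℝ} (h : σ ^ 2 = 1) (φ : ℝ) :
    Dat (gR φ) (gS σ φ) (gG σ φ) (gS2 σ φ) (gG2 σ φ) (gE φ) := by
  have e3 : gS σ φ ^ 2 + gG σ φ ^ 2 = 2 * gR φ := by
    refine mul_right_cancel₀ (pow_ne_zero 2 (L_pos φ).ne') ?_
    rw [add_mul, ← mul_pow, ← mul_pow, G_mul, S_mul h]
    linear_combination 2 * ((gE φ + 2 * lam) ^ 2 + (6 / 5 * lam) ^ 2) * quad h0 φ +
      4 * (6 / 5 * lam) ^ 2 * (gP φ ^ 2 + (sm * (6 / 5 * lam)) ^ 2) * h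
  refine ⟨(basic h0 φ).1, by rw [gR_eq]; linarith [sq_nonneg (gE φ), sq_nonneg (6 / 5 * lam)], e3, ?_, ?_⟩
  · rw [gS2, G2_eq h]
    linear_combination (gE φ ^ 2 + (6 / 5 * lam) ^ 2) / 4 * e3 + gR φ * gR_eq φ +
      (6 / 5 * lam) ^ 2 * (gS σ φ ^ 2 + gG σ φ ^ 2) / 4 * h
  · rw [gS2, G2_eq h]
    linear_combination gE φ / 2 * e3

end G12

theorem g1S [Lam] (h0 : Fam0Stmt) : G1Stmt := by
  intro σ hσ φ τ
  have h : σ ^ 2 = 1 := by rcases hσ with rfl | rfl <;> norm_num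
  obtain ⟨a1, a2, a3, a4⟩ := G12.basic h0 φ
  rw [G12.fK_eq]
  have m1 : (r2c (fx 1 He φ)).1 = gR φ := rfl
  have m2 : (r2c (fx 1 He φ)).2 = gP φ := rfl
  generalize r2c (fx 1 He φ) = m at a2 a3 a4 m1 m2
  have b1 : bG σ (sm * (6 / 5 * lam) : ℝ) m = gG σ φ := by
    rw [bG, bL, bxi, a2, a3, a4, m2, gG]; push_cast; rfl
  have b2 : bG2 σ (sm * (6 / 5 * lam) : ℝ) m = gG2 σ φ := by
    rw [bG2, b1, gG2]; push_cast; rfl
  have b3 : bS σ (sm * (6 / 5 * lam) : ℝ) m = gS σ φ := by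
    rw [bS, b1, b2, a2, a3, gS]; push_cast; rfl
  have hr : ((gR φ : ℝ) : ℂ) ≠ 0 := ofReal_ne_zero.2 a1.ne'
  have c1 : bv2 σ (sm * (6 / 5 * lam) : ℝ) m = (gS2 σ φ + I * gG2 σ φ) / gR φ := by
    rw [bv2, bv3, a2, a3, b1, b3, m1, gS2, G12.G2_eq h]
    push_cast
    linear_combination (-(σ * (6 / 5 * lam) * gG σ φ) / (2 * gR φ) : ℂ) * I_sq
  have c2 : bv2t σ (sm * (6 / 5 * lam) : ℝ) m = (gS2 σ φ - I * gG2 σ φ) / gR φ := by
    rw [bv2t, bv3t, a2, a3, b1, b3, m1, gS2, G12.G2_eq h]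
    push_cast
    linear_combination (-(σ * (6 / 5 * lam) * gG σ φ) / (2 * gR φ) : ℂ) * I_sq
  have c3 : bS2 σ (sm * (6 / 5 * lam) : ℝ) m = gS2 σ φ := by
    rw [bS2, c1, c2, m1]
    field_simp
    ring
  refine ⟨?_, ?_, ?_, ?_⟩
  · rw [w2b, c1, m1, G12.sq_real a1.le, U2, mk_eq_add_mul_I]
    push_cast
    ring
  · rw [w3b, bv3, b1, b3, m1, G12.sq_real a1.le, U3, mk_eq_add_mul_I]
    push_cast
    ring
  · rw [t2b, c3, m1, T2]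
    push_cast
    rfl
  · rw [t3b, b3, m1, T3]
    push_cast
    rfl

theorem g2S [Lam] (h0 : Fam0Stmt) : G2Stmt := by
  have cE : Continuous gE := by unfold gE; fun_prop
  have cP : Continuous gP := by unfold gP fx fq; fun_prop
  have cR : Continuous gR := by unfold gR fx; fun_prop
  have cG : ∀ σ, Continuous (gG σ) := fun σ => by
    unfold gG
    exact Continuous.div (by fun_prop) (by fun_prop) fun φ => (G12.L_pos φ).ne'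
  have cG2 : ∀ σ, Continuous (gG2 σ) := fun σ => by
    have := cG σ
    unfold gG2; fun_prop
  have cS : ∀ σ, Continuous (gS σ) := fun σ => by
    have := cG σ
    have := cG2 σ
    unfold gS; fun_prop
  have cS2 : ∀ σ, Continuous (gS2 σ) := fun σ => by
    have := cG σ
    have := cS σ
    unfold gS2; fun_prop
  refine ⟨fun σ hσ => ⟨G12.dat h0 (by rcases hσ with rfl | rfl <;> norm_num), cS σ, cG σ, cS2 σ,
    cG2 σ⟩, cR, fun φ => ?_⟩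
  have e1 : gE (-φ) = gE φ := by rw [gE, gE, Real.cos_neg]
  have e2 : gP (-φ) = -gP φ := by
    simp only [gP, fx, Real.cos_neg, Real.sin_neg]
    ring
  have e3 : gG (-1) (-φ) = gG 1 φ := by rw [gG, gG, e1, e2]; ring
  have e4 : gG2 (-1) (-φ) = gG2 1 φ := by rw [gG2, gG2, e3]
  have e5 : gS (-1) (-φ) = -gS 1 φ := by rw [gS, gS, e1, e3, e4]; ring
  refine ⟨?_, by rw [G12.gR_eq, G12.gR_eq, e1], e1, e3, e4, e5, by rw [gS2, gS2, e1, e3, e5]; ring⟩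
  refine mul_right_cancel₀ (G12.L_pos φ).ne' ?_
  rw [gS2]
  linear_combination -((gE φ + 2 * lam) / 2) * G12.S_mul (σ := 1) (by norm_num) φ -
    (6 / 5 * lam / 2) * G12.G_mul 1 φ

end Pool.Agent.MP_1ba41f_an.S2.W.CV
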