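import Pool.Agent.MP_1ba41f_an.S2.W.CV.CSpec

/-! Special points of the largest circle and the two chains, for a general ratio. -/

set_option autoImplicit false

noncomputable section
open Set Real

namespace Pool.Agent.MP_1ba41f_an.S2.W.CV

namespace G3

theorem eq_of_sq {P c : ℝ} (h0 : 0 ≤ P) (hc : 0 ≤ c) (h : P ^ 2 = c ^ 2) : P = c :=
  (pow_left_inj₀ h0 hc two_ne_zero).1 h

/-- first chain -/
theorem up {l m ξ P y : ℝ} (hl : 0 < l) (hm : 0 < m) (e : m ^ 2 = 1 - l ^ 2) (hP : 0 ≤ P)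
    (h : P ^ 2 = ξ ^ 2 - y ^ 2) (hy : y ≤ l * ξ) : m * y ≤ l * P := by
  rcases le_total y 0 with h0 | h0
  · exact (mul_nonpos_of_nonneg_of_nonpos hm.le h0).trans (mul_nonneg hl.le hP)
  · refine abs_le_of_sq_le_sq' ?_ (mul_nonneg hl.le hP) |>.2
    have h1 : y ^ 2 ≤ (l * ξ) ^ 2 := pow_le_pow_left₀ h0 hy 2
    rw [mul_pow, mul_pow, e, h]
    nlinarith only [h1]

/-- second chain -/
theorem down {l m ξ P y : ℝ} (hl : 0 < l) (hm : 0 < m) (e : m ^ 2 = 1 - l ^ 2) (hξ : 0 ≤ ξ)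
    (h : P ^ 2 = ξ ^ 2 - y ^ 2) (hy : l * ξ ≤ y) : l * P ≤ m * y := by
  have h0 : 0 ≤ l * ξ := mul_nonneg hl.le hξ
  refine abs_le_of_sq_le_sq' ?_ (mul_nonneg hm.le (h0.trans hy)) |>.2
  have h1 : (l * ξ) ^ 2 ≤ y ^ 2 := pow_le_pow_left₀ h0 hy 2
  rw [mul_pow, mul_pow, e, h]
  nlinarith only [h1]

/-- the middle point -/
theorem midp {l m n : ℝ} (hl : 0 < l) (hl' : l ≤ 3 / 5) (hm : 4 / 5 ≤ m) (e : m ^ 2 = 1 - l ^ 2)
    (hn : 19 / 20 ≤ n) : (2 - 4 / 5 * l ^ 2) ^ 2 ≤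
      3 * ((8 * n - 2 * m) / 5 - l * (4 * n + 2 * m) / 5) *
        (4 / 5 * (m + n) + (8 * n - 2 * m) / 5 / 2) := by
  have h1 : m ≤ 1 - l ^ 2 / 2 := by nlinarith only [e, sq_nonneg (1 - m)]
  have h2 : (28 / 5 - 29 / 5 * l + l ^ 2 + l ^ 3) / 5 ≤
      (8 * n - 2 * m) / 5 - l * (4 * n + 2 * m) / 5 := by
    have a := mul_le_mul_of_nonneg_left hn (by linarith : 0 ≤ 8 - 4 * l)
    have b := mul_le_mul_of_nonneg_left h1 (by linarith : 0 ≤ 2 + 2 * l)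
    nlinarith only [a, b]
  have h3 : 2 ≤ 4 / 5 * (m + n) + (8 * n - 2 * m) / 5 / 2 := by linarith
  have h4 : (2 - 4 / 5 * l ^ 2) ^ 2 ≤ 3 * ((28 / 5 - 29 / 5 * l + l ^ 2 + l ^ 3) / 5) * 2 := by
    have a : 0 ≤ l ^ 3 * (3 / 5 - l) := mul_nonneg (by positivity) (by linarith)
    have b : 0 ≤ l ^ 3 := by positivity
    have c : 0 ≤ (3 / 5 - l) * (3 / 5 - l) := mul_self_nonneg _
    nlinarith only [a, b, c, hl', mul_nonneg hl.le c]
  have h5 : 0 ≤ (28 / 5 - 29 / 5 * l + l ^ 2 + l ^ 3) / 5 := by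
    nlinarith only [hl', sq_nonneg l, pow_pos hl 3]
  exact h4.trans (mul_le_mul (by linarith) h3 (by norm_num) (by linarith))

variable [Lam]

theorem sm_pos : 0 < sm := by linarith [sm_ge]

theorem He_sq : He ^ 2 = (1 + lam) ^ 2 - (6 / 5 * lam) ^ 2 :=
  Real.sq_sqrt (by nlinarith [lam_pos, lam_le])

theorem He_pos : 0 < He := Real.sqrt_pos.2 (by nlinarith [lam_pos, lam_le])

theorem He_hi : He < 1 + lam := by
  have := lam_pos
  refine lt_of_pow_lt_pow_left₀ 2 (by linarith) ?_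
  rw [He_sq]; nlinarith

theorem hR (φ : ℝ) : gR φ = (4 - (6 / 5 * lam) ^ 2 - gE φ ^ 2) / 2 := by
  simp only [gR, fx, fD, gE, He_sq]; ring

theorem xi_pos (φ : ℝ) : 0 < gE φ + 2 * lam := by
  have := mul_le_mul_of_nonneg_left (neg_one_le_cos φ) He_pos.le
  have := He_hi
  simp only [gE]; linarith

theorem hq (φ : ℝ) : fq 1 He (cos φ) =
    (gE φ + 2 * lam) ^ 2 + 2 * (gE φ + 2 * lam) * (1 - lam) + (6 / 5 * lam) ^ 2 := by
  simp only [fq, fN, gE, He_sq]; ring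

theorem hP (φ : ℝ) : gP φ ^ 2 = (gE φ + 2 * lam) ^ 2 -
    (((gE φ + 2 * lam) ^ 2 + (6 / 5 * lam) ^ 2) / 2 - lam * (gE φ + 2 * lam)) ^ 2 := by
  have h0 : 0 ≤ 1 - lam := by linarith [lam_le]
  have h3 := xi_pos φ
  have h1 : √(fq 1 He (cos φ)) ^ 2 =
      (gE φ + 2 * lam) ^ 2 + 2 * (gE φ + 2 * lam) * (1 - lam) + (6 / 5 * lam) ^ 2 := by
    rw [Real.sq_sqrt (by rw [hq]; positivity), hq]
  have h2 : (He * sin φ) ^ 2 = (1 + lam) ^ 2 - (6 / 5 * lam) ^ 2 - (He * cos φ) ^ 2 := by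
    rw [mul_pow, mul_pow He, sin_sq, He_sq]; ring
  simp only [gP, fx]
  rw [div_pow, mul_pow, h1, h2]
  simp only [gE]
  ring

theorem P_nonneg {φ : ℝ} (h : 0 ≤ sin φ) : 0 ≤ gP φ := by
  have := He_pos
  simp only [gP, fx]; positivity

theorem P_nonpos {φ : ℝ} (h : sin φ ≤ 0) : gP φ ≤ 0 :=
  div_nonpos_of_nonpos_of_nonneg (mul_nonpos_of_nonpos_of_nonneg
    (mul_nonpos_of_nonneg_of_nonpos He_pos.le h) (Real.sqrt_nonneg _)) (by norm_num)

theorem hL (φ : ℝ) : 0 < (gE φ + 2 * lam) ^ 2 + (6 / 5 * lam) ^ 2 := by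
  have := lam_pos
  positivity

theorem hG (φ : ℝ) : gG 1 φ = 2 * (sm * (6 / 5 * lam) * (gE φ + 2 * lam) + 6 / 5 * lam * gP φ) /
    ((gE φ + 2 * lam) ^ 2 + (6 / 5 * lam) ^ 2) := by rw [gG, one_mul]

theorem hS (φ : ℝ) : gS 1 φ = (gE φ + 2 * lam) * gG 1 φ / (6 / 5 * lam) - 2 * sm := by
  have := lam_pos
  simp only [gS, gG2]; field_simp; ring

theorem mem_of {c : ℝ} (h : c ^ 2 < (1 + lam) ^ 2 - (6 / 5 * lam) ^ 2) :
    -1 < c / He ∧ c / He < 1 := by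
  rw [← He_sq] at h
  have h1 := abs_lt.1 (abs_lt_of_sq_lt_sq h He_pos.le)
  exact ⟨by rw [lt_div_iff₀ He_pos]; linarith [h1.1], by rw [div_lt_one He_pos]; exact h1.2⟩

theorem mH : -1 < (13 / 5 * lam - 1) / He ∧ (13 / 5 * lam - 1) / He < 1 :=
  mem_of (by nlinarith [lam_pos, lam_le])

theorem mM : -1 < (7 / 5 * lam - 1) / He ∧ (7 / 5 * lam - 1) / He < 1 :=
  mem_of (by nlinarith [lam_pos, lam_le])

theorem mK : -1 < (-(3 / 5 * lam) - 1) / He ∧ (-(3 / 5 * lam) - 1) / He < 1 :=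
  mem_of (by nlinarith [lam_pos, lam_le])

theorem mB : -1 < (-(lam / 2) - 1) / He ∧ (-(lam / 2) - 1) / He < 1 :=
  mem_of (by nlinarith [lam_pos, lam_le])

theorem E_arccos {c : ℝ} (h : -1 < c / He ∧ c / He < 1) : He * cos (arccos (c / He)) = c := by
  have := He_pos
  rw [cos_arccos h.1.le h.2.le]
  field_simp

theorem E_pH : gE pH = 8 / 5 * lam := by rw [gE, pH, E_arccos mH]; ring

theorem E_pM : gE pM = 2 / 5 * lam := by rw [gE, pM, E_arccos mM]; ring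

theorem E_pK : gE pK = -(8 / 5 * lam) := by rw [gE, pK, E_arccos mK]; ring

theorem E_pB : gE pB = -(3 / 2 * lam) := by rw [gE, pB, cos_two_pi_sub, E_arccos mB]; ring

theorem E_anti {a b : ℝ} (ha : 0 ≤ a) (hb : b ≤ π) (h : a ≤ b) : gE b ≤ gE a := by
  have := mul_le_mul_of_nonneg_left (cos_le_cos_of_nonneg_of_le_pi ha hb h) He_pos.le
  simp only [gE]; linarith

omit [Lam] in
theorem lt_pi {c : ℝ} (h : -1 < c) : arccos c < π :=
  lt_of_le_of_ne (arccos_le_pi _) fun e => absurd (arccos_eq_pi.1 e) (not_le.2 h)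

omit [Lam] in
theorem sin_ac (c : ℝ) : 0 ≤ sin (arccos c) :=
  sin_nonneg_of_nonneg_of_le_pi (arccos_nonneg _) (arccos_le_pi _)

theorem G_pH : gP pH = 18 / 5 * lam * sm ∧ gG 1 pH = 6 / 5 * sm := by
  have hl := lam_pos
  have hm := sm_pos
  have h1 : gP pH = 18 / 5 * lam * sm :=
    eq_of_sq (P_nonneg (sin_ac _)) (by positivity) (by rw [hP, E_pH, mul_pow _ sm, sm_sq]; ring)
  refine ⟨h1, ?_⟩
  rw [hG, div_eq_iff (hL _).ne', h1, E_pH]; ring

theorem G_pK : gG 1 pK = 6 / 5 * sm := by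
  have hl := lam_pos
  have hm := sm_pos
  have h1 : gP pK = 2 / 5 * lam * sm :=
    eq_of_sq (P_nonneg (sin_ac _)) (by positivity) (by rw [hP, E_pK, mul_pow _ sm, sm_sq]; ring)
  rw [hG, div_eq_iff (hL _).ne', h1, E_pK]; ring

theorem G_pB : gG 1 pB < 0 := by
  have hl := lam_pos
  have hm := sm_pos
  have h0 : gP pB ≤ 0 := P_nonpos (by
    rw [pB, sin_two_pi_sub]
    exact neg_nonpos.2 (sin_ac _))
  have h1 : (lam / 2 * sm) ^ 2 < (-gP pB) ^ 2 := by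
    rw [neg_sq, hP, E_pB, mul_pow _ sm, sm_sq]
    nlinarith [pow_pos hl 4]
  have h3 : lam / 2 * sm < -gP pB := lt_of_pow_lt_pow_left₀ 2 (by linarith) h1
  rw [hG]
  refine div_neg_of_neg_of_pos ?_ (hL _)
  rw [E_pB]
  nlinarith [mul_lt_mul_of_pos_left h3 hl]

theorem chain1 {φ : ℝ} (hK : pK < π) (hφ : φ ∈ Icc pH pK) :
    0 < gG 1 φ ∧ gG2 1 φ ≤ 0 ∧ 6 / 5 ≤ gR φ := by
  have hl := lam_pos
  have hl' := lam_le
  have hm := sm_pos
  have h0 : 0 ≤ φ := (arccos_nonneg _).trans hφ.1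
  have h1 : gE φ ≤ 8 / 5 * lam := E_pH ▸ E_anti (arccos_nonneg _) (hφ.2.trans hK.le) hφ.1
  have h3 : -(8 / 5 * lam) ≤ gE φ := E_pK ▸ E_anti h0 hK.le hφ.2
  have h4 := P_nonneg (sin_nonneg_of_nonneg_of_le_pi h0 (hφ.2.trans hK.le))
  have h6 : gE φ ^ 2 ≤ (8 / 5 * lam) ^ 2 := sq_le_sq' h3 h1
  have h9 := up hl hm sm_sq h4 (hP φ) (by nlinarith only [h6])
  have h7 : 6 / 5 * sm ≤ gG 1 φ := by
    rw [hG, le_div_iff₀ (hL φ)]
    linarith only [h9]
  refine ⟨by linarith, ?_, ?_⟩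
  · rw [gG2]; nlinarith only [mul_le_mul_of_nonneg_left h7 hl.le]
  · rw [hR]; nlinarith only [h6, hl, hl']

theorem chain2 {φ : ℝ} (hφ : φ ∈ Icc pK pB) :
    gE φ ≤ -(3 / 2 * lam) ∧ gG 1 φ ≤ 6 / 5 * sm ∧
      (gE φ + 2 * lam) * gG 1 φ ≤ 2 / 5 * sm * (6 / 5 * lam) := by
  have hl := lam_pos
  have hm := sm_pos
  have hx := xi_pos φ
  rcases le_total φ π with h | h
  · have h1 : gE φ ≤ -(8 / 5 * lam) := E_pK ▸ E_anti (arccos_nonneg _) h hφ.1
    have h6 : (8 / 5 * lam) ^ 2 ≤ (-gE φ) ^ 2 := pow_le_pow_left₀ (by positivity) (by linarith) 2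
    have h9 := down hl hm sm_sq hx.le (hP φ) (by nlinarith only [h6])
    have h7 : gG 1 φ ≤ 6 / 5 * sm := by
      rw [hG, div_le_iff₀ (hL φ)]
      linarith only [h9]
    refine ⟨by linarith, h7, (mul_le_mul_of_nonneg_left h7 hx.le).trans ?_⟩
    nlinarith only [mul_le_mul_of_nonneg_left h1 hm.le]
  · have h6 : arccos ((-(lam / 2) - 1) / He) ≤ 2 * π - φ := by
      have := hφ.2
      rw [pB] at this
      linarith
    have h7 := E_anti (arccos_nonneg _) (by linarith) h6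
    have h8 : gE (2 * π - φ) = gE φ := by simp only [gE, cos_two_pi_sub]
    have h9 : gE (arccos ((-(lam / 2) - 1) / He)) = -(3 / 2 * lam) := by
      rw [gE, E_arccos mB]; ring
    have h10 : gP φ ≤ 0 := P_nonpos (by
      have := sin_nonneg_of_nonneg_of_le_pi ((arccos_nonneg _).trans h6) (by linarith)
      rw [sin_two_pi_sub] at this
      linarith)
    have h1 : gE φ ≤ -(3 / 2 * lam) := by linarith
    have h11 : gG 1 φ ≤ 5 / 6 * sm := by
      rw [hG, div_le_iff₀ (hL φ)]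
      have a := mul_le_mul_of_nonneg_left h1 (mul_pos hm hl).le
      have b := mul_nonpos_of_nonneg_of_nonpos hl.le h10
      have c := mul_nonneg hm.le (sq_nonneg (gE φ + 2 * lam))
      nlinarith only [a, b, c]
    refine ⟨h1, by linarith, (mul_le_mul_of_nonneg_left h11 hx.le).trans ?_⟩
    nlinarith only [mul_le_mul_of_nonneg_left h1 hm.le, mul_pos hm hl]

end G3

open G3 in
theorem g3S [Lam] (_h0 : Fam0Stmt) (h2 : G2Stmt) : G3Stmt := by
  have hl := lam_pos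
  have hl' := lam_le
  have hm := sm_pos
  have hm' := sm_ge
  have hs : 0 < 6 / 5 * lam := by positivity
  have hK : pK < π := lt_pi mK.1
  have hB := lt_pi mB.1
  have hPS : ∀ φ, gP φ = gS2 1 φ + lam * gS 1 φ := fun φ => (h2.2.2 φ).1
  refine ⟨⟨?_, ?_, hK, by rw [pB]; linarith⟩, ?_, ⟨by rw [G_pK]; linarith, by rw [gG2, G_pK]; ring⟩,
    ?_, G_pB, fun φ hφ => chain1 hK hφ, fun φ hφ => ?_⟩
  · exact arccos_lt_arccos mM.1.le (div_lt_div_of_pos_right (by linarith) He_pos) mH.2.le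
  · exact arccos_lt_arccos mK.1.le (div_lt_div_of_pos_right (by linarith) He_pos) mM.2.le
  · obtain ⟨h1, h3⟩ := G_pH
    have h4 : gS 1 pH = 8 / 5 * sm := by rw [hS, h3, E_pH]; field_simp; ring
    have h5 := hPS pH
    rw [h1, h4] at h5
    exact ⟨by rw [hR, E_pH, sm_sq]; ring, h4, h3, by linarith, by rw [gG2, h3]; ring⟩
  · obtain ⟨n, hn⟩ : ∃ n, gP pM = 12 / 5 * lam * n := ⟨gP pM / (12 / 5 * lam), by field_simp⟩
    have h0 : 0 ≤ gP pM := P_nonneg (sin_ac _)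
    have h1 : (12 / 5 * lam * (19 / 20)) ^ 2 ≤ gP pM ^ 2 := by
      rw [hP, E_pM]
      nlinarith only [mul_nonneg (sq_nonneg lam) (by nlinarith : 0 ≤ 9 / 25 - lam ^ 2),
        sq_nonneg lam]
    have h3 : 19 / 20 ≤ n := by
      have := (abs_le_of_sq_le_sq' h1 h0).2
      rw [hn] at this
      exact le_of_mul_le_mul_left this (by positivity)
    have h4 : gG 1 pM = 4 / 5 * (sm + n) := by
      rw [hG, div_eq_iff (hL _).ne', hn, E_pM]; ring
    have h5 : gS 1 pM = (8 * n - 2 * sm) / 5 := by rw [hS, h4, E_pM]; field_simp; ring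
    have h6 : gS2 1 pM = lam * (4 * n + 2 * sm) / 5 := by
      have := hPS pM
      rw [hn, h5] at this
      linarith
    have h7 : gR pM = 2 - 4 / 5 * lam ^ 2 := by rw [hR, E_pM]; ring
    have h8 := sm_lt
    refine ⟨by rw [h5]; linarith, by rw [h6]; positivity, ?_, ?_⟩
    · rw [gG2, h4]
      nlinarith only [mul_pos hl (by linarith : 0 < 2 * n - sm)]
    · rw [h7, h5, h6, h4]
      exact midp hl hl' hm' sm_sq h3
  · obtain ⟨h1, h7, h8⟩ := chain2 hφ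
    have hx := xi_pos φ
    have h10 : gS 1 φ ≤ -(8 / 5 * sm) := by
      have := (div_le_iff₀ hs).2 h8
      rw [hS]; linarith
    have h9 : -(gE φ + 2 * lam) ≤ gP φ :=
      (abs_le_of_sq_le_sq' (by rw [hP]; exact sub_le_self _ (sq_nonneg _)) hx.le).1
    have h11 := hPS φ
    have h12 : (3 / 2 * lam) ^ 2 ≤ (-gE φ) ^ 2 := pow_le_pow_left₀ (by positivity) (by linarith) 2
    have h13 : (-gE φ) ^ 2 ≤ (2 * lam) ^ 2 := pow_le_pow_left₀ (by linarith) (by linarith) 2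
    have h14 := ((h2.1 1 (Or.inl rfl)).1 φ).e2
    have h15 := hR φ
    refine ⟨?_, h10, by linarith, ?_, ?_, ?_, ?_⟩
    · rw [gG2]; nlinarith only [mul_le_mul_of_nonneg_left h7 hl.le]
    · nlinarith only [h11, h9, h1, mul_le_mul_of_nonneg_left h10 hl.le,
        mul_le_mul_of_nonneg_left hm' hl.le, hl]
    · nlinarith only [h14, h15, h12, sq_nonneg (gG2 1 φ), sq_nonneg (2 - gR φ)]
    · nlinarith only [h15, h13, hl, hl']
    · rw [sm_sq]; nlinarith only [h15, h12]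

end Pool.Agent.MP_1ba41f_an.S2.W.CV
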