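import Pool.Agent.MP_1ba41f_an.S2.W.CV.CSpec
import Pool.Agent.MP_1ba41f_an.S2.CV.K123

/-! The covering for a general ratio: two estimates on synchronous pairs of times. -/

set_option autoImplicit false

noncomputable section
open Set Complex
open scoped ComplexConjugate

namespace Pool.Agent.MP_1ba41f_an.S2.W.CV

open S2.CV (T2 T3 U2 U3 Syn Q1 Dirs)
open S2.CV.K123 (T2_zero T3_zero T2_mono T2_le T3_mono neg2)

namespace K12

theorem d2 {r S G S2 G2 η : ℝ} (h : Dat r S G S2 G2 η) : (r - 1) ^ 2 + S2 ^ 2 ≤ 1 := by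
  nlinarith [h.e2, sq_nonneg G2]

theorem d3 {r S G S2 G2 η : ℝ} (h : Dat r S G S2 G2 η) : S ^ 2 ≤ 2 * r := by
  linarith [h.e3, sq_nonneg G]

theorem win {r S G S2 G2 η τ2 τ3 : ℝ} (h : Dat r S G S2 G2 η) (hs : Syn r S S2 τ2 τ3)
    (ht : τ2 + τ3 ≤ 33 / 4 - S) : τ2 < 2 * Real.pi := by
  by_contra hc
  have hc := not_lt.1 hc
  have hp := Real.pi_gt_d4
  have h1 := (T2_mono (d2 h)).monotone hc
  have h2 : T2 r S2 (2 * Real.pi) = 2 * Real.pi := by simp [T2]
  have h3 := (T3_mono (d3 h)).monotone (show τ3 ≤ 1967 / 1000 - S by linarith)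
  have h4 : 0 ≤ 1967 / 1000 - S := by linarith [hs.2.1]
  have h5 : r * (1967 / 1000 - S) ≤ 2 * (1967 / 1000 - S) :=
    mul_le_mul_of_nonneg_right h.r1 h4
  have h6 : T3 r S (1967 / 1000 - S) ≤ 25 / 4 := by
    unfold T3
    rcases le_total S 0 with h0 | h0
    · nlinarith [mul_nonneg (sq_nonneg S) (neg_nonneg.2 h0), sq_nonneg (S + 61 / 60)]
    · nlinarith [mul_nonneg (sq_nonneg S) h4, sq_nonneg S]
  linarith [hs.2.2]

theorem late {r S G S2 G2 η τ2 τ3 : ℝ} (h : Dat r S G S2 G2 η) (hs : Syn r S S2 τ2 τ3)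
    (ht : τ2 + τ3 = 33 / 4 - S) : 23 / 5 < τ2 := by
  by_contra hc
  have hc := not_lt.1 hc
  have h1 := T2_le (d2 h) τ2
  have h3 := (T3_mono (d3 h)).monotone (show 73 / 20 - S ≤ τ3 by linarith)
  have h7 := d3 h
  have h4 : S ≤ 2 := by nlinarith [h.r1]
  have h5 : S ^ 2 * (73 / 20 - S) ≤ 2 * r * (73 / 20 - S) :=
    mul_le_mul_of_nonneg_right h7 (by linarith)
  have h8 : S ^ 3 ≤ 2 ^ 3 := (Odd.strictMono_pow (by decide)).monotone h4
  have h6 : 67 / 10 ≤ T3 r S (73 / 20 - S) := by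
    unfold T3
    nlinarith
  linarith [hs.2.2]

end K12

open K12

theorem k1S : K1Stmt := by
  intro r S G S2 G2 η τ2 τ3 h hs
  refine ⟨⟨fun h0 => ?_, fun h0 => ?_⟩, win h hs, fun ht hr => ?_⟩
  · apply (T3_mono (d3 h)).injective
    rw [← hs.2.2, h0, T2_zero, T3_zero]
  · apply (T2_mono (d2 h)).injective
    rw [hs.2.2, h0, T2_zero, T3_zero]
  have h1 := win h hs ht.le
  have h2 := late h hs ht
  have hp := Real.pi_lt_d4
  refine ⟨by linarith, ?_⟩
  show Real.cos (τ2 / 2) + S2 / r * Real.sin (τ2 / 2) < 0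
  have h3 := Real.one_sub_sq_div_two_le_cos (x := Real.pi - τ2 / 2)
  rw [Real.cos_pi_sub] at h3
  have h4 : (Real.pi - τ2 / 2) ^ 2 ≤ (842 / 1000) ^ 2 :=
    pow_le_pow_left₀ (by linarith) (by linarith) 2
  have h5 : 645 / 1000 ≤ -Real.cos (τ2 / 2) := by linarith
  rcases hr with hr | hr
  · have h6 : (S2 / r) ^ 2 ≤ 2 / 3 := by
      rw [div_pow, div_le_iff₀ (pow_pos h.r0 2)]
      nlinarith [h.e2, sq_nonneg G2, h.r0]
    have h7 := Real.sin_sq_add_cos_sq (τ2 / 2)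
    have h8 : (S2 / r * Real.sin (τ2 / 2)) ^ 2 < (-Real.cos (τ2 / 2)) ^ 2 := by
      have := mul_le_mul_of_nonneg_right h6 (sq_nonneg (Real.sin (τ2 / 2)))
      rw [mul_pow]
      nlinarith
    have := lt_of_pow_lt_pow_left₀ 2 (by linarith) h8
    linarith
  · have h6 : S2 / r * Real.sin (τ2 / 2) ≤ 0 :=
      mul_nonpos_of_nonpos_of_nonneg (div_nonpos_of_nonpos_of_nonneg hr h.r0.le)
        (Real.sin_nonneg_of_nonneg_of_le_pi (by linarith) (by linarith))
    linarith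

theorem k2S : K2Stmt := by
  intro m r S G S2 G2 η τ2 τ3 h hs m1 m2 hS hη h2 hq hr
  have mm : m ^ 2 ≤ 9 / 5 * m - 4 / 5 := by nlinarith
  have hp := Real.pi_gt_d4
  have hp' := Real.pi_lt_d4
  have a : τ3 ≤ 133 / 50 → τ2 ≤ Real.pi := by
    intro ht
    by_contra hc
    have hc := (not_le.1 hc).le
    have h1 := (T2_mono (d2 h)).monotone hc
    have h4 : T2 r S2 Real.pi = Real.pi + 2 * S2 := by simp [T2]; ring
    have h3 := (T3_mono (d3 h)).monotone ht
    have h6 : T3 r S (133 / 50) ≤ 3 := by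
      unfold T3
      linarith
    linarith [hs.2.2]
  have a1 : τ2 + τ3 ≤ 29 / 5 → τ2 ≤ Real.pi := fun ht => by
    by_contra hc
    exact hc (a (by linarith [not_le.1 hc]))
  have a2 : 29 / 5 ≤ τ2 + τ3 → 1329 / 500 ≤ τ3 := fun ht => by
    by_contra hc
    have hc := not_le.1 hc
    linarith [a (by linarith)]
  have r0 := h.r0
  have hA : 29 / 5 ≤ τ2 + τ3 → 1 + S / r * τ3 / 2 < 0 := fun ht => by
    have h3 := a2 ht
    have : 1 + S / r * τ3 / 2 = (2 * r + S * τ3) / (2 * r) := by field_simp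
    rw [this]
    have h4 : S * τ3 ≤ S * (1329 / 500) := mul_le_mul_of_nonpos_left h3 (by linarith)
    exact div_neg_of_neg_of_pos (by linarith) (by linarith)
  refine ⟨a1, hA, fun ht => ?_⟩
  have h1 := a1 ht.le
  have h3 := a2 ht.ge
  have s1 : S2 ≤ -(13 / 10 * η) :=
    le_of_pow_le_pow_left₀ (n := 2) two_ne_zero (by linarith) (by nlinarith [sq_nonneg η])
  have hB : (2 * S2 + η * τ3) / (2 * r) < 0 := by
    have h4 : η * τ3 ≤ η * (1329 / 500) := mul_le_mul_of_nonpos_left h3 hη.le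
    exact div_neg_of_neg_of_pos (by linarith) (by linarith)
  have e : (U3 r S G τ3 * conj (U2 r S2 G2 τ2)).re = Real.cos (τ2 / 2) * (1 + S / r * τ3 / 2) +
      Real.sin (τ2 / 2) * ((2 * S2 + η * τ3) / (2 * r)) := by
    have hη' : η = (S * S2 + G * G2) / r := by rw [h.dot]; field_simp
    rw [mul_re, conj_re, conj_im, hη']
    simp only [U2, U3]
    field_simp
    ring
  rw [e]
  exact neg2 (Real.cos_nonneg_of_mem_Icc ⟨by linarith [hs.1, Real.pi_pos], by linarith⟩)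
    (Real.sin_nonneg_of_nonneg_of_le_pi (by linarith [hs.1]) (by linarith [Real.pi_pos]))
    (Real.sin_sq_add_cos_sq _) (hA ht.ge) hB

end Pool.Agent.MP_1ba41f_an.S2.W.CV
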