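import Pool.Agent.MP_1ba41f_an.S2.W.CV.CSpec
import Pool.Agent.MP_1ba41f_an.S2.CV.K45

/-! The covering for a general ratio, rows K4 and K5. -/

set_option autoImplicit false

noncomputable section
open Set Complex

namespace Pool.Agent.MP_1ba41f_an.S2.W.CV

open S2.CV (T2 T3 U2 U3 Syn Q1 Dirs)

namespace K45

theorem early {l m t : ℝ} (hl : 0 ≤ l) (hm : 4 / 5 ≤ m) (h0 : 0 < t) (h1 : t ≤ 1 / 2) :
    T3 (2 * m ^ 2) (8 / 5 * m) t < T2 (2 * m ^ 2) (2 * l * m) (4 / 3 * t) := by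
  have m0 : 0 < m := by linarith
  have r1 : 0 ≤ 2 * m ^ 2 - 1 := by nlinarith
  have a2 := mul_le_mul_of_nonneg_left (Real.sin_ge_sub_cube (x := 4 / 3 * t) (by linarith)) r1
  have a3 : 0 ≤ 2 * l * m * (1 - Real.cos (4 / 3 * t)) :=
    mul_nonneg (by positivity) (by linarith [Real.cos_le_one (4 / 3 * t)])
  have a4 : t ^ 2 ≤ 1 / 4 := by nlinarith
  have a5 := mul_le_mul_of_nonneg_left a4 r1
  have a6 := mul_le_mul_of_nonneg_left h1 m0.le
  have a7 : 4 / 5 * m * t + t ^ 2 / 6 + 32 / 81 * ((2 * m ^ 2 - 1) * t ^ 2) < 2 / 3 * m ^ 2 := by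
    nlinarith
  have a8 := mul_lt_mul_of_pos_left a7 h0
  unfold T2 T3
  linarith

theorem key {r S S2 t : ℝ} (r1 : 1 ≤ r) (s2 : S2 ≤ 0) (t0 : 0 < t) (h : r * t < 3 * (S2 - S)) :
    T3 r S t < T2 r S2 t := by
  have a1 := mul_le_mul_of_nonneg_left (Real.sin_ge_sub_cube t0.le) (by linarith : 0 ≤ r - 1)
  have a2 := Real.one_sub_sq_div_two_le_cos (x := t)
  have a3 : S2 * (t ^ 2 / 2) ≤ S2 * (1 - Real.cos t) := mul_le_mul_of_nonpos_left (by linarith) s2
  have a4 := mul_lt_mul_of_pos_left h (pow_pos t0 2)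
  unfold T2 T3
  linarith

theorem pos {r S G t : ℝ} (r0 : 0 < r) (e : S ^ 2 + G ^ 2 = 2 * r) (t0 : 0 < t) : 0 < T3 r S t := by
  have a1 : 0 < r + S * t / 2 + t ^ 2 / 6 := by
    nlinarith [sq_nonneg (t + 3 / 2 * S), sq_nonneg G]
  have a2 := mul_pos t0 a1
  unfold T3
  linarith

end K45

theorem k4S : K4Stmt := by
  intro l m τ2 τ3 ζ hl hm hlm ⟨h2, h3, hT⟩ hs ⟨hx, hy⟩ hc he
  have m0 : 0 < m := by linarith
  have l1 : l ≤ 3 / 5 := by nlinarith
  have r1 : 0 < 2 * m ^ 2 - 1 := by nlinarith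
  have r2 : 2 * m ^ 2 - 1 ≤ 1 := by nlinarith
  have hmo : Monotone (T2 (2 * m ^ 2) (2 * l * m)) :=
    S2.CV.K45.mono (le_of_eq (by linear_combination 4 * m ^ 2 * hlm))
  have e1 := congrArg re he
  have e2 := congrArg im he
  simp only [U2, U3, mul_re, mul_im, zero_div, zero_mul, mul_zero, sub_zero, zero_add] at e1 e2
  have hcs := Real.sin_sq_add_cos_sq (τ2 / 2)
  have f1 : m + 2 / 5 * τ3 = ζ.re * (m * Real.cos (τ2 / 2) + l * Real.sin (τ2 / 2)) := by
    have := congrArg (m * ·) e1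
    field_simp at this ⊢
    linarith
  have f2 : 3 / 10 * τ3 = ζ.im * (m * Real.cos (τ2 / 2) + l * Real.sin (τ2 / 2)) := by
    have := congrArg (m * ·) e2
    field_simp at this ⊢
    linarith
  clear e1 e2 he
  have ha : 0 < m * Real.cos (τ2 / 2) + l * Real.sin (τ2 / 2) := by
    by_contra hn
    linarith [mul_nonneg hx (neg_nonneg.2 (not_lt.1 hn))]
  have b0 : 0 ≤ 2 * l * m * (1 - Real.cos τ2) :=
    mul_nonneg (by positivity) (by linarith [Real.cos_le_one τ2])
  have hT' := hT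
  unfold T2 T3 at hT'
  rcases hc with hc | hc
  · have g1 := mul_le_mul_of_nonneg_right hc ha.le
    have g2 : m * Real.cos (τ2 / 2) + l * Real.sin (τ2 / 2) ≤ 1 := by
      linarith [sq_nonneg (Real.cos (τ2 / 2) - m), sq_nonneg (Real.sin (τ2 / 2) - l)]
    rcases h3.eq_or_lt with h0 | h0
    · have g3 : τ2 = 0 := by
        by_contra hn
        have a1 := Real.abs_sin_lt_abs hn
        rw [abs_of_nonneg h2] at a1
        have a2 := mul_lt_mul_of_pos_left (abs_lt.1 a1).1 r1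
        have a3 := mul_le_mul_of_nonneg_right r2 h2
        rw [← h0] at hT'
        linarith
      rw [g3, ← h0, zero_div, Real.cos_zero, Real.sin_zero] at f1 f2
      exact Complex.ext (mul_right_cancel₀ m0.ne' (by rw [one_re]; linarith))
        (mul_right_cancel₀ m0.ne' (by rw [one_im]; linarith))
    · exfalso
      have g4 : τ2 < 4 / 3 * τ3 := by
        by_contra hn
        have a1 := hmo (not_lt.1 hn)
        have a2 := K45.early hl hm h0 (by linarith)
        linarith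
      have g5 := mul_le_mul_of_nonneg_left (Real.cos_le_one (τ2 / 2)) m0.le
      have g6 := mul_le_mul_of_nonneg_left (Real.sin_le (x := τ2 / 2) (by linarith)) hl
      have g7 := mul_le_mul_of_nonneg_right l1 h2
      linarith
  · exfalso
    have g0 := mul_le_mul_of_nonneg_right hc ha.le
    have g1 : 4 ≤ τ3 := by linarith
    have a1 := mul_le_mul_of_nonneg_left (Real.neg_one_le_cos τ2) (by positivity : 0 ≤ l * m)
    have a2 := mul_le_mul_of_nonneg_left (Real.sin_le_one τ2) r1.le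
    have a3 : (4 : ℝ) ^ 3 ≤ τ3 ^ 3 := pow_le_pow_left₀ (by norm_num) g1 3
    have a4 : 0 ≤ m ^ 2 * τ3 := by positivity
    have a5 : 0 ≤ m * τ3 ^ 2 := by positivity
    linarith [sq_nonneg (l - m)]

theorem k5S : K5Stmt := by
  intro r S G S2 G2 η τ2 τ3 l hD ⟨h2, h3, hT⟩ r1 s1 s2 hG hG2 hr hπ l1 l2 l3 he
  have r0 := hD.r0
  have hm : Monotone (T2 r S2) :=
    MP_1ba41f_an.S2.CV.K45.mono (by linarith [hD.e2, sq_nonneg G2])
  have d0 : 0 < G - S / 2 := by linarith
  have d1 : 0 < 3 * (S2 - S) := (mul_pos_iff_of_pos_right d0).1 ((pow_pos r0 2).trans_le hr)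
  have e1 := congrArg re he
  have e2 := congrArg im he
  simp only [U2, U3, mul_re, mul_im] at e1 e2
  rcases h3.eq_or_lt with h0 | h0
  · have g3 : τ2 = 0 := by
      by_contra hn
      have a0 : 0 < τ2 := lt_of_le_of_ne h2 (Ne.symm hn)
      have a1 : 0 < min τ2 ((S2 - S) / r) := lt_min a0 (div_pos (by linarith) r0)
      have a2 := hm (min_le_left τ2 ((S2 - S) / r))
      have a6 := (le_div_iff₀' r0).1 (min_le_right τ2 ((S2 - S) / r))
      have a3 := K45.key (S := S) r1 s2 a1 (by linarith)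
      have a4 := K45.pos r0 hD.e3 a1
      rw [hT, ← h0] at a2
      have a5 : T3 r S 0 = 0 := by simp [T3]
      linarith
    rw [g3, ← h0] at e1 e2
    simp only [zero_div, Real.cos_zero, Real.sin_zero, mul_zero, add_zero, mul_one, sub_zero,
      zero_add] at e1 e2
    exact Complex.ext (by rw [one_re]; exact e1.symm) (by rw [one_im]; exact e2.symm)
  exfalso
  have g0 : 0 < τ2 := by
    rcases h2.eq_or_lt with h4 | h4
    · have a1 := K45.pos r0 hD.e3 h0
      rw [← hT, ← h4] at a1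
      simp [T2] at a1
    · exact h4
  have hs : 0 < Real.sin (τ2 / 2) := Real.sin_pos_of_pos_of_lt_pi (by linarith) (by linarith)
  rw [Complex.sq_norm, normSq_apply] at l3
  have b0 : 0 < G / r * τ3 / 2 := by positivity
  have b1 : G2 / r * Real.sin (τ2 / 2) < 0 := mul_neg_of_neg_of_pos (div_neg_of_neg_of_pos hG2 r0) hs
  have c3 : r * (1 + S / r * τ3 / 2) = r + S * τ3 / 2 := by field_simp
  have c4 : r * (G / r * τ3 / 2) = G * τ3 / 2 := by field_simp
  have c5 : r * (Real.cos (τ2 / 2) + S2 / r * Real.sin (τ2 / 2)) =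
      r * Real.cos (τ2 / 2) + S2 * Real.sin (τ2 / 2) := by field_simp
  generalize 1 + S / r * τ3 / 2 = a3 at e1 e2 c3
  generalize G / r * τ3 / 2 = b3 at e1 e2 c4 b0
  generalize Real.cos (τ2 / 2) + S2 / r * Real.sin (τ2 / 2) = a2 at e1 c5
  obtain ⟨q, hq⟩ : ∃ q, l.im = -q := ⟨-l.im, (neg_neg _).symm⟩
  rw [hq] at e1 e2 l1 l2 l3
  generalize l.re = p at e1 e2 l2 l3
  have q0 : 0 ≤ q := by linarith
  have q1 : 2 * q ≤ p := by linarith
  have b2 : p * b3 < q * a3 := by linarith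
  have b4 : 2 * q * b3 ≤ p * b3 := mul_le_mul_of_nonneg_right q1 b0.le
  have q2 : 0 < q := by
    rcases q0.eq_or_lt with h | h
    · rw [← h] at b2 b4
      linarith
    · exact h
  have b5 : 2 * b3 < a3 := lt_of_mul_lt_mul_left (by linarith) q0
  have p0 : 0 < p := by linarith
  have b6 : a2 < a3 := by
    refine lt_of_mul_lt_mul_left ?_ p0.le
    have c2 : p * a2 = p * p * a3 + q * (p * b3) := by rw [e1]; ring
    have c3 : q * (p * b3) < q * (q * a3) := mul_lt_mul_of_pos_left b2 q2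
    have c4 : (p * p + q * q) * a3 ≤ p * a3 :=
      mul_le_mul_of_nonneg_right (by linarith) (by linarith)
    linarith
  have b7 := mul_lt_mul_of_pos_left b5 r0
  have b8 := mul_lt_mul_of_pos_left b6 r0
  have t0 : τ3 * (G - S / 2) < r := by linarith
  have t1 : r * τ3 < 3 * (S2 - S) :=
    lt_of_mul_lt_mul_right (by linarith [mul_lt_mul_of_pos_left t0 r0]) d0.le
  have t2 : τ2 < τ3 := by
    by_contra hn
    have a1 := hm (not_lt.1 hn)
    have a2 := K45.key r1 s2 h0 t1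
    linarith
  have k1 := mul_le_mul_of_nonneg_left (Real.one_sub_sq_div_two_le_cos (x := τ2 / 2)) r0.le
  have k2 : S2 * (τ3 / 2) ≤ S2 * Real.sin (τ2 / 2) :=
    mul_le_mul_of_nonpos_left ((Real.sin_le (by linarith)).trans (by linarith)) s2
  have k3 := mul_le_mul_of_nonneg_left (pow_le_pow_left₀ h2 t2.le 2) r0.le
  have k4 := mul_lt_mul_of_pos_left t1 h0
  have k5 : 0 < r * τ3 ^ 2 := by positivity
  linarith

end Pool.Agent.MP_1ba41f_an.S2.W.CV
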