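import Pool.Agent.MP_1ba41f_an.S2.W.CV.CSpec
import Pool.Agent.MP_1ba41f_an.S2.CV.Rou

/-! The covering for a general ratio: the regions around zero and around infinity. -/

set_option autoImplicit false

noncomputable section
open Set Complex
open scoped ComplexConjugate

namespace Pool.Agent.MP_1ba41f_an.S2.W.CV

open S2.CV (T2 T3 U2 U3 Syn Q1)
open S2.CV.Rou (gen U2_zero U3_zero sin_half_pos)

variable [Lam]

/-- continuity of the model -/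
theorem cont (h : G2Stmt) {σ : ℝ} (hσ : σ = 1 ∨ σ = -1) :
    (Continuous fun φ => √(gR φ)) ∧ (∀ φ, 0 < √(gR φ)) ∧
    (Continuous fun q : ℝ × ℝ × ℝ =>
      T2 (gR q.1) (gS2 σ q.1) q.2.1 - T3 (gR q.1) (gS σ q.1) q.2.2) ∧
    (Continuous fun q : ℝ × ℝ × ℝ => U2 (gR q.1) (gS2 σ q.1) (gG2 σ q.1) q.2.1) ∧
    Continuous fun q : ℝ × ℝ × ℝ => U3 (gR q.1) (gS σ q.1) (gG σ q.1) q.2.2 := by
  obtain ⟨d, c1, c2, c3, c4⟩ := h.1 σ hσ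
  have c0 := h.2.1
  have ci : Continuous fun φ => (gR φ)⁻¹ := c0.inv₀ fun φ => (d φ).r0.ne'
  refine ⟨c0.sqrt, fun φ => Real.sqrt_pos.2 (d φ).r0, by unfold T2 T3; fun_prop, ?_, ?_⟩
  · simp only [U2, mk_eq_add_mul_I, div_eq_mul_inv _ (gR _)]
    have : Continuous fun q : ℝ × ℝ × ℝ => (gR q.1)⁻¹ := ci.comp continuous_fst
    fun_prop
  · simp only [U3, mk_eq_add_mul_I, div_eq_mul_inv _ (gR _)]
    have : Continuous fun q : ℝ × ℝ × ℝ => (gR q.1)⁻¹ := ci.comp continuous_fst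
    fun_prop

omit [Lam] in
theorem top_mem {r S G S2 G2 η : ℝ} (d : Dat r S G S2 G2 η) : 33 / 4 - S ∈ Icc (0 : ℝ) 11 := by
  have := d.r1
  have := d.e3
  constructor <;> nlinarith [sq_nonneg G, sq_nonneg (S - 2), sq_nonneg (S + 2)]

theorem plusS (g2 : G2Stmt) (g3 : G3Stmt) (k1 : K1Stmt) (k2 : K2Stmt) (k4 : K4Stmt) :
    PlusStmt := by
  intro P hP hQ
  obtain ⟨c1, c2, c3, c4, c5⟩ := cont g2 (Or.inl rfl)
  obtain ⟨d, cS, -⟩ := g2.1 1 (Or.inl rfl)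
  obtain ⟨⟨o1, o2, o3, o4⟩, vH, vK, -, vB, ch1, ch2⟩ := g3
  have HK : pH ≤ pK := by linarith
  have KB : pK ≤ pB := by linarith
  have HB : pH ≤ pB := by linarith
  have cg : Continuous fun φ => (φ, 33 / 4 - gS 1 φ) := by fun_prop
  have K2 := fun φ (h : φ ∈ Icc pK pB) τ2 τ3 sy => k2 sm _ _ _ _ _ _ τ2 τ3 (d φ) sy sm_ge sm_lt.le
    (ch2 φ h).2.1 (ch2 φ h).2.2.1 (ch2 φ h).2.2.2.1 (ch2 φ h).2.2.2.2.1 (ch2 φ h).2.2.2.2.2.2
  have m1 := sm_ge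
  have m2 := sm_lt
  have tH := top_mem (d pH)
  have tK := top_mem (d pK)
  have sK : 29 / 5 ≤ 33 / 4 - gS 1 pK := by linarith [(ch2 pK ⟨le_rfl, KB⟩).2.1]
  have imn : ∀ {φ τ : ℝ}, gG 1 φ < 0 → 0 < τ → (U3 (gR φ) (gS 1 φ) (gG 1 φ) τ).im < 0 :=
    fun {φ τ} h h' => by
      have := mul_neg_of_neg_of_pos (div_neg_of_neg_of_pos h (d φ).r0) h'
      show gG 1 φ / gR φ * τ / 2 < 0
      linarith
  have imp : ∀ {φ τ : ℝ}, 0 < gG 1 φ → 0 < τ → 0 < (U3 (gR φ) (gS 1 φ) (gG 1 φ) τ).im :=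
    fun {φ τ} h h' => half_pos (mul_pos (div_pos h (d φ).r0) h')
  have pos3 : ∀ {φ τ2 τ3 : ℝ}, Syn (gR φ) (gS 1 φ) (gS2 1 φ) τ2 τ3 → τ2 + τ3 ≠ 0 → 0 < τ3 :=
    fun {φ τ2 τ3} sy h => sy.2.1.lt_of_ne' fun h3 =>
      h (by rw [(k1 _ _ _ _ _ _ _ _ (d φ) sy).1.2 h3, h3, add_zero])
  obtain ⟨δ, δ0, h⟩ := gen c1 c2 c3 c5 c4 (a := pH) (b := pB)
    (A := ({pH} ×ˢ Icc 0 (33 / 4 - gS 1 pH) ∪ Icc pH pB ×ˢ {0}) ∪ {pB} ×ˢ Icc 0 (29 / 5))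
    (B := ((fun φ => (φ, 33 / 4 - gS 1 φ)) '' Icc pH pK ∪ {pK} ×ˢ Icc (29 / 5) (33 / 4 - gS 1 pK)) ∪
      Icc pK pB ×ˢ {29 / 5})
    (((isCompact_singleton.prod isCompact_Icc).union (isCompact_Icc.prod isCompact_singleton)).union
      (isCompact_singleton.prod isCompact_Icc))
    (((isCompact_Icc.image cg).union (isCompact_singleton.prod isCompact_Icc)).union
      (isCompact_Icc.prod isCompact_singleton))
    (.union (pB, 0) (Or.inr ⟨⟨HB, le_rfl⟩, rfl⟩) ⟨rfl, le_rfl, by norm_num⟩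
      (.union (pH, 0) ⟨rfl, le_rfl, tH.1⟩ ⟨⟨le_rfl, HB⟩, rfl⟩
        (isPreconnected_singleton.prod isPreconnected_Icc)
        (isPreconnected_Icc.prod isPreconnected_singleton))
      (isPreconnected_singleton.prod isPreconnected_Icc))
    (.union (pK, 29 / 5) (Or.inr ⟨rfl, le_rfl, sK⟩) ⟨⟨le_rfl, KB⟩, rfl⟩
      (.union (pK, 33 / 4 - gS 1 pK) ⟨pK, ⟨HK, le_rfl⟩, rfl⟩ ⟨rfl, sK, le_rfl⟩
        (isPreconnected_Icc.image _ cg.continuousOn)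
        (isPreconnected_singleton.prod isPreconnected_Icc))
      (isPreconnected_Icc.prod isPreconnected_singleton))
    (by
      rintro ⟨φ, s⟩ ((⟨rfl, h⟩ | ⟨h, rfl⟩) | ⟨rfl, h⟩)
      exacts [⟨⟨le_rfl, HB⟩, h.1, h.2.trans tH.2⟩, ⟨h, by norm_num⟩,
        ⟨⟨HB, le_rfl⟩, h.1, h.2.trans (by norm_num)⟩])
    (by
      rintro ⟨φ, s⟩ ((⟨ψ, h, e⟩ | ⟨rfl, h⟩) | ⟨h, rfl⟩)
      · rw [← e]
        exact ⟨⟨h.1, h.2.trans KB⟩, top_mem (d ψ)⟩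
      exacts [⟨⟨HK, KB⟩, le_trans (by norm_num) h.1, h.2.trans tK.2⟩,
        ⟨⟨HK.trans h.1, h.2⟩, by norm_num⟩])
    (x := (pB, 29 / 5)) (y := (pH, 33 / 4 - gS 1 pH)) (Or.inr ⟨rfl, by norm_num, le_rfl⟩)
    (Or.inr ⟨⟨KB, le_rfl⟩, rfl⟩) (Or.inl (Or.inl ⟨rfl, tH.1, le_rfl⟩))
    (Or.inl (Or.inl ⟨pH, ⟨le_rfl, HK⟩, rfl⟩)) hP
    (fun φ τ2 τ3 hm h2 h3 h0 ζ hζ => by
      have sy : Syn (gR φ) (gS 1 φ) (gS2 1 φ) τ2 τ3 := ⟨h2, h3, sub_eq_zero.1 h0⟩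
      obtain ⟨q1, q2, q3⟩ := hQ ζ hζ
      have zero : τ2 + τ3 = 0 → U3 (gR φ) (gS 1 φ) (gG 1 φ) τ3 ∈ slitPlane ∧
          U3 (gR φ) (gS 1 φ) (gG 1 φ) τ3 ≠ ζ * U2 (gR φ) (gS2 1 φ) (gG2 1 φ) τ2 := fun e => by
        rw [show τ2 = 0 by linarith, show τ3 = 0 by linarith, U2_zero, U3_zero, mul_one]
        exact ⟨one_mem_slitPlane, q3.symm⟩
      rcases hm with (⟨rfl, h⟩ | ⟨-, h⟩) | ⟨rfl, h⟩
      · simp only [vH.1, vH.2.1, vH.2.2.1, vH.2.2.2.1, vH.2.2.2.2] at sy h ⊢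
        exact ⟨Or.inl (by simp only [U3]; positivity), fun e => q3 (k4 lam sm _ _ ζ lam_pos.le m1
          (by linarith [sm_sq]) sy (by linarith [h.2]) q1 q2 e)⟩
      · exact zero h
      · by_cases e : τ2 + τ3 = 0
        · exact zero e
        have i3 := imn vB (pos3 sy e)
        refine ⟨Or.inr i3.ne, fun e' => i3.not_ge ?_⟩
        have b := ch2 pB ⟨KB, le_rfl⟩
        have t := (K2 pB ⟨KB, le_rfl⟩ τ2 τ3 sy).1 h.2
        have r0 := (d pB).r0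
        have s0 : 0 ≤ Real.sin (τ2 / 2) :=
          Real.sin_nonneg_of_nonneg_of_le_pi (by linarith) (by linarith)
        have s1 : 0 ≤ Real.cos (τ2 / 2) :=
          Real.cos_nonneg_of_neg_pi_div_two_le_of_le (by linarith) (by linarith)
        have b1 := b.1
        have b2 := b.2.2.2.1
        have := q1.1
        have := q1.2
        rw [e', mul_im]
        simp only [U2]
        positivity)
    (fun φ τ2 τ3 hm h2 h3 h0 ζ hζ => by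
      have sy : Syn (gR φ) (gS 1 φ) (gS2 1 φ) τ2 τ3 := ⟨h2, h3, sub_eq_zero.1 h0⟩
      obtain ⟨q1, -, -⟩ := hQ ζ hζ
      rcases hm with (⟨ψ, h, e⟩ | ⟨rfl, h⟩) | ⟨h, e⟩
      · obtain ⟨rfl, e⟩ := Prod.ext_iff.1 e
        obtain ⟨b1, b2, b3⟩ := ch1 ψ h
        obtain ⟨a1, a2, a3⟩ := k1 _ _ _ _ _ _ _ _ (d ψ) sy
        obtain ⟨a4, a5⟩ := a3 e.symm (Or.inl b3)
        have i3 := imp (φ := ψ) b1 (pos3 sy (by linarith))
        refine ⟨Or.inr (by simpa using i3.ne'), fun e' => i3.not_ge ?_⟩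
        have : (U2 (gR ψ) (gS2 1 ψ) (gG2 1 ψ) τ2).im ≤ 0 :=
          mul_nonpos_of_nonpos_of_nonneg (div_nonpos_of_nonpos_of_nonneg b2 (d ψ).r0.le)
            (sin_half_pos a4 (a2 e.ge)).le
        rw [e', mul_im]
        nlinarith [q1.1, q1.2]
      · have a1 := (K2 pK ⟨le_rfl, KB⟩ τ2 τ3 sy).2.1 h.1
        have i3 := imp vK.1 (pos3 sy (by linarith [h.1]))
        refine ⟨Or.inl (by simpa using a1), fun e' => ?_⟩
        have z : (U2 (gR pK) (gS2 1 pK) (gG2 1 pK) τ2).im = 0 := by simp [U2, vK.2]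
        rw [e', mul_re, z] at a1
        rw [e', mul_im, z] at i3
        generalize (U2 (gR pK) (gS2 1 pK) (gG2 1 pK) τ2).re = u at a1 i3
        rcases le_total 0 u with hu | hu <;> nlinarith [q1.1, q1.2]
      · have a1 := (K2 φ h τ2 τ3 sy).2.1 (le_of_eq (Eq.symm e))
        have a2 := (K2 φ h τ2 τ3 sy).2.2 e
        refine ⟨Or.inl (by simpa using a1), fun e' => a2.not_ge ?_⟩
        rw [e', mul_assoc, mul_conj, re_mul_ofReal]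
        exact mul_nonneg q1.1 (normSq_nonneg _))
    (fun τ2 τ3 e h2 h3 h0 => imn vB (pos3 ⟨h2, h3, sub_eq_zero.1 h0⟩ (by rw [e]; norm_num)))
    (fun τ2 τ3 e h2 h3 h0 => imp (by rw [vH.2.2.1]; linarith)
      (pos3 ⟨h2, h3, sub_eq_zero.1 h0⟩ (by rw [e, vH.2.1]; linarith)))
  refine ⟨δ, δ0, fun w2 w3 h2 h3 hN ζ hζ => h w3 w2 h3 h2 (fun φ s hs => ?_) ζ
    fun t ht => ⟨_, hζ t ht, by simpa using δ0.le⟩⟩
  obtain ⟨τ2, τ3, a, b, c, e, f, g⟩ := hN φ s hs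
  exact ⟨τ2, τ3, a, b, c, e, g, f⟩

theorem minusS (g2 : G2Stmt) (g3 : G3Stmt) (k1 : K1Stmt) (k5 : K5Stmt) : MinusStmt := by
  intro P hP hQ
  obtain ⟨c1, c2, c3, c4, c5⟩ := cont g2 (Or.inr rfl)
  obtain ⟨d, cS, -⟩ := g2.1 (-1) (Or.inr rfl)
  have eR := fun ψ => (g2.2.2 ψ).2.1
  have eG := fun ψ => (g2.2.2 ψ).2.2.2.1
  have eG2 := fun ψ => (g2.2.2 ψ).2.2.2.2.1
  have eS := fun ψ => (g2.2.2 ψ).2.2.2.2.2.1
  have eS2 := fun ψ => (g2.2.2 ψ).2.2.2.2.2.2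
  obtain ⟨⟨o1, o2, o3, o4⟩, -, -, vP, vB, ch1, ch2⟩ := g3
  set a := -pB with ha
  set b := -pM with hb
  have ab : a ≤ b := by linarith
  have cg : Continuous fun φ => (φ, 33 / 4 - gS (-1) φ) := by fun_prop
  have ta := top_mem (d a)
  have tb := top_mem (d b)
  have K1 := fun φ τ2 τ3 sy => k1 _ _ _ _ _ _ τ2 τ3 (d φ) sy
  have imn : ∀ {φ τ : ℝ}, gG2 (-1) φ < 0 → 0 < τ → τ < 2 * Real.pi →
      (U2 (gR φ) (gS2 (-1) φ) (gG2 (-1) φ) τ).im < 0 := fun {φ τ} h h' h'' =>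
    mul_neg_of_neg_of_pos (div_neg_of_neg_of_pos h (d φ).r0) (sin_half_pos h' h'')
  have imp : ∀ {φ τ : ℝ}, gG (-1) φ < 0 → 0 < τ → τ < 2 * Real.pi →
      0 < (U2 (gR φ) (gS2 (-1) φ) (gG2 (-1) φ) τ).im := fun {φ τ} h h' h'' =>
    mul_pos (div_pos (by
      unfold gG2
      nlinarith [mul_pos lam_pos (neg_pos.2 h), lam_pos, sm_ge]) (d φ).r0) (sin_half_pos h' h'')
  have rep : ∀ {φ τ : ℝ}, 0 ≤ gS (-1) φ → 0 ≤ τ → 0 < (U3 (gR φ) (gS (-1) φ) (gG (-1) φ) τ).re :=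
    fun {φ τ} h h' => by
      have := (d φ).r0
      simp only [U3]
      positivity
  have i3n : ∀ {φ τ : ℝ}, gG (-1) φ < 0 → 0 ≤ τ → (U3 (gR φ) (gS (-1) φ) (gG (-1) φ) τ).im ≤ 0 :=
    fun {φ τ} h h' => by
      have := mul_nonpos_of_nonpos_of_nonneg (div_neg_of_neg_of_pos h (d φ).r0).le h'
      show gG (-1) φ / gR φ * τ / 2 ≤ 0
      linarith
  have Ga : gG (-1) a < 0 := (eG pB).trans_lt vB
  have Sa : 0 ≤ gS (-1) a := by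
    rw [ha, eS]
    linarith [(ch2 pB ⟨by linarith, le_rfl⟩).2.1, sm_ge]
  have Gb : gG2 (-1) b < 0 := (eG2 _).trans_lt vP.2.2.1
  have rr : ∀ φ ∈ Icc a b, 6 / 5 ≤ gR φ ∨ gS2 (-1) φ ≤ 0 := fun φ h => by
    rcases le_total (-φ) pK with h' | h'
    · exact Or.inl (eR φ ▸ (ch1 (-φ) ⟨by linarith [h.2], h'⟩).2.2)
    · have := eS2 (-φ)
      rw [neg_neg] at this
      exact Or.inr (by linarith [(ch2 (-φ) ⟨h', by linarith [h.1]⟩).2.2.2.1])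
  obtain ⟨δ, δ0, h⟩ := gen c1 c2 c3 c4 c5 (a := a) (b := b)
    (A := ({a} ×ˢ Icc 0 (33 / 4 - gS (-1) a) ∪ Icc a b ×ˢ {0}) ∪
      {b} ×ˢ Icc 0 (33 / 4 - gS (-1) b))
    (B := (fun φ => (φ, 33 / 4 - gS (-1) φ)) '' Icc a b)
    (((isCompact_singleton.prod isCompact_Icc).union (isCompact_Icc.prod isCompact_singleton)).union
      (isCompact_singleton.prod isCompact_Icc)) (isCompact_Icc.image cg)
    (.union (b, 0) (Or.inr ⟨⟨ab, le_rfl⟩, rfl⟩) ⟨rfl, le_rfl, tb.1⟩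
      (.union (a, 0) ⟨rfl, le_rfl, ta.1⟩ ⟨⟨le_rfl, ab⟩, rfl⟩
        (isPreconnected_singleton.prod isPreconnected_Icc)
        (isPreconnected_Icc.prod isPreconnected_singleton))
      (isPreconnected_singleton.prod isPreconnected_Icc))
    (isPreconnected_Icc.image _ cg.continuousOn)
    (by
      rintro ⟨φ, s⟩ ((⟨rfl, h⟩ | ⟨h, rfl⟩) | ⟨rfl, h⟩)
      exacts [⟨⟨le_rfl, ab⟩, h.1, h.2.trans ta.2⟩, ⟨h, by norm_num⟩,
        ⟨⟨ab, le_rfl⟩, h.1, h.2.trans tb.2⟩])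
    (by
      rintro _ ⟨ψ, h, rfl⟩
      exact ⟨h, top_mem (d ψ)⟩)
    (x := (b, 33 / 4 - gS (-1) b)) (y := (a, 33 / 4 - gS (-1) a)) (Or.inr ⟨rfl, tb.1, le_rfl⟩)
    ⟨b, ⟨ab, le_rfl⟩, rfl⟩ (Or.inl (Or.inl ⟨rfl, ta.1, le_rfl⟩)) ⟨a, ⟨le_rfl, ab⟩, rfl⟩ hP
    (fun φ τ2 τ3 hm h2 h3 h0 l hl => by
      have sy : Syn (gR φ) (gS (-1) φ) (gS2 (-1) φ) τ2 τ3 := ⟨h2, h3, sub_eq_zero.1 h0⟩
      obtain ⟨q1, q2, q3, q4⟩ := hQ l hl
      obtain ⟨a1, a2, -⟩ := K1 φ τ2 τ3 sy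
      rcases h2.eq_or_lt with rfl | p2
      · rw [a1.1 rfl, U2_zero, U3_zero, mul_one]
        exact ⟨one_mem_slitPlane, q4.symm⟩
      rcases hm with (⟨rfl, h⟩ | ⟨-, h⟩) | ⟨rfl, h⟩
      · have i2 := imp Ga p2 (a2 h.2)
        refine ⟨Or.inr i2.ne', fun e => i2.not_ge ?_⟩
        rw [e, mul_im]
        nlinarith [rep Sa h3, i3n Ga h3]
      · exact absurd (show τ2 + τ3 = 0 from h) (by linarith)
      · refine ⟨Or.inr (imn Gb p2 (a2 h.2)).ne, fun e => q4 ?_⟩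
        obtain ⟨v1, v2, -, v4⟩ := vP
        obtain ⟨v5, -, v6⟩ := ch1 pM ⟨o1.le, o2.le⟩
        refine k5 _ _ _ _ _ _ _ _ l (d b) sy ?_ ?_ ?_ ?_ Gb ?_ (a2 h.2) q1 q2 q3 e <;>
          simp only [hb, eR, eS, eS2, eG] <;> linarith)
    (fun φ τ2 τ3 hm h2 h3 h0 l hl => by
      have sy : Syn (gR φ) (gS (-1) φ) (gS2 (-1) φ) τ2 τ3 := ⟨h2, h3, sub_eq_zero.1 h0⟩
      obtain ⟨q1, q2, -, -⟩ := hQ l hl
      obtain ⟨ψ, h, e⟩ := hm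
      obtain ⟨rfl, e⟩ := Prod.ext_iff.1 e
      obtain ⟨a1, a2, a3⟩ := K1 ψ τ2 τ3 sy
      obtain ⟨a4, a5⟩ := a3 e.symm (rr ψ h)
      have a6 := a2 e.ge
      have p3 : 0 < τ3 := h3.lt_of_ne' fun e => a4.ne' (a1.2 e)
      have r0 := (d ψ).r0
      refine ⟨Or.inl (by simpa using a5), fun e' => ?_⟩
      rcases le_total (-ψ) pK with h' | h'
      · obtain ⟨b1, b2, -⟩ := ch1 (-ψ) ⟨by linarith [h.2], h'⟩
        rw [← eG, neg_neg] at b1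
        rw [← eG2, neg_neg] at b2
        have i2 : (U2 (gR ψ) (gS2 (-1) ψ) (gG2 (-1) ψ) τ2).im ≤ 0 :=
          mul_nonpos_of_nonpos_of_nonneg (div_nonpos_of_nonpos_of_nonneg b2 r0.le)
            (sin_half_pos a4 a6).le
        have i3 : 0 < (U3 (gR ψ) (gS (-1) ψ) (gG (-1) ψ) τ3).im :=
          half_pos (mul_pos (div_pos (by linarith) r0) p3)
        rw [e', mul_re] at a5
        rw [e', mul_im] at i2
        generalize U3 (gR ψ) (gS (-1) ψ) (gG (-1) ψ) τ3 = u at a5 i2 i3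
        have m1 : l.re * u.re < 0 := by nlinarith
        have m2 : 0 < l.re := lt_of_le_of_ne (by linarith) fun e => by simp [← e] at m1
        have m3 : u.re < 0 := neg_of_mul_neg_right m1 m2.le
        nlinarith [mul_pos m2 i3]
      · have b1 := (ch2 (-ψ) ⟨h', by linarith [h.1]⟩).2.1
        have b2 := eS (-ψ)
        rw [neg_neg] at b2
        have r3 := rep (φ := ψ) (by linarith [sm_ge]) h3
        rcases lt_or_ge (gG (-1) ψ) 0 with hG | hG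
        · have i2 := imp hG a4 a6
          rw [e', mul_im] at i2
          nlinarith [i3n hG h3]
        · have i3 : 0 ≤ (U3 (gR ψ) (gS (-1) ψ) (gG (-1) ψ) τ3).im := by
            simp only [U3]
            positivity
          rw [e', mul_re] at a5
          nlinarith)
    (fun τ2 τ3 e h2 h3 h0 => by
      obtain ⟨-, a2, a3⟩ := K1 b τ2 τ3 ⟨h2, h3, sub_eq_zero.1 h0⟩
      exact imn Gb (a3 e (rr b ⟨ab, le_rfl⟩)).1 (a2 e.le))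
    (fun τ2 τ3 e h2 h3 h0 => by
      obtain ⟨-, a2, a3⟩ := K1 a τ2 τ3 ⟨h2, h3, sub_eq_zero.1 h0⟩
      exact imp Ga (a3 e (rr a ⟨le_rfl, ab⟩)).1 (a2 e.le))
  exact ⟨δ, δ0, fun w2 w3 h2 h3 hN l hl => h w2 w3 h2 h3 hN l hl⟩

end Pool.Agent.MP_1ba41f_an.S2.W.CV
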