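import Pool.Agent.MP_1ba41f_an.S2.W.CV.Cover
import Pool.Agent.MP_1ba41f_an.S2.W.CV.PM
import Pool.Agent.MP_1ba41f_an.S2.W.CV.G12
import Pool.Agent.MP_1ba41f_an.S2.W.CV.G3
import Pool.Agent.MP_1ba41f_an.S2.W.CV.K12
import Pool.Agent.MP_1ba41f_an.S2.W.CV.K45
import Pool.Agent.MP_1ba41f_an.S2.W.CV.Dir

/-! The covering for a general ratio. -/

set_option autoImplicit false

namespace Pool.Agent.MP_1ba41f_an.S2.W.CV

theorem coverAll [Lam] (h0 : Fam0Stmt) : CoverStmt :=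
  coverS (g1S h0) (g2S h0) (g3S h0 (g2S h0)) (dirS h0)
    (plusS (g2S h0) (g3S h0 (g2S h0)) k1S k2S k4S) (minusS (g2S h0) (g3S h0 (g2S h0)) k1S k5S)

end Pool.Agent.MP_1ba41f_an.S2.W.CV
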