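import Pool.Agent.MP_1ba41f_an.S2.W.SpecK
import Pool.Agent.MP_1ba41f_an.S2.CV.CSpec

/-! The covering for a general ratio of the small masses: statements of the parts. -/

set_option autoImplicit false

noncomputable section
open Set Complex
open scoped ComplexConjugate

namespace Pool.Agent.MP_1ba41f_an.S2.W.CV

open S2.CV (T2 T3 U2 U3 Syn Q1 Dirs)

/-- the relations between the data of a collision state -/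
structure Dat (r S G S2 G2 η : ℝ) : Prop where
  r0 : 0 < r
  r1 : r ≤ 2
  e3 : S ^ 2 + G ^ 2 = 2 * r
  e2 : S2 ^ 2 + G2 ^ 2 = r * (2 - r)
  dot : S * S2 + G * G2 = η * r

/-- K1: the window before the first return of the second body. -/
def K1Stmt : Prop :=
  ∀ r S G S2 G2 η τ2 τ3 : ℝ, Dat r S G S2 G2 η → Syn r S S2 τ2 τ3 →
    (τ2 = 0 ↔ τ3 = 0) ∧ (τ2 + τ3 ≤ 33 / 4 - S → τ2 < 2 * Real.pi) ∧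
    (τ2 + τ3 = 33 / 4 - S → 6 / 5 ≤ r ∨ S2 ≤ 0 → 0 < τ2 ∧ (U2 r S2 G2 τ2).re < 0)

/-- K2: the second chain. -/
def K2Stmt : Prop :=
  ∀ m r S G S2 G2 η τ2 τ3 : ℝ, Dat r S G S2 G2 η → Syn r S S2 τ2 τ3 → 4 / 5 ≤ m → m ≤ 1 →
    S ≤ -(8 / 5 * m) → η < 0 → 0 ≤ S2 → S2 ^ 2 ≤ 41 / 25 * η ^ 2 →
    r ≤ 31 / 200 + 369 / 200 * m ^ 2 → (τ2 + τ3 ≤ 29 / 5 → τ2 ≤ Real.pi) ∧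
    (29 / 5 ≤ τ2 + τ3 → (U3 r S G τ3).re < 0) ∧
    (τ2 + τ3 = 29 / 5 → (U3 r S G τ3 * conj (U2 r S2 G2 τ2)).re < 0)

/-- K4: the side with a radial second body. -/
def K4Stmt : Prop :=
  ∀ (l m τ2 τ3 : ℝ) (ζ : ℂ), 0 ≤ l → 4 / 5 ≤ m → l ^ 2 + m ^ 2 = 1 →
    Syn (2 * m ^ 2) (8 / 5 * m) (2 * l * m) τ2 τ3 → τ2 + τ3 ≤ 7 → Q1 ζ →
    ζ.re ≤ 1 ∨ ζ.re ≤ 2 * ζ.im →
    U3 (2 * m ^ 2) (8 / 5 * m) (6 / 5 * m) τ3 = ζ * U2 (2 * m ^ 2) (2 * l * m) 0 τ2 → ζ = 1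

/-- K5: the side with a retrograde second body. -/
def K5Stmt : Prop :=
  ∀ (r S G S2 G2 η τ2 τ3 : ℝ) (l : ℂ), Dat r S G S2 G2 η → Syn r S S2 τ2 τ3 → 1 ≤ r → S < 0 →
    S2 ≤ 0 → 0 < G → G2 < 0 → r ^ 2 ≤ 3 * (S2 - S) * (G - S / 2) → τ2 < 2 * Real.pi →
    l.im ≤ 0 → -2 * l.im ≤ l.re → ‖l‖ ^ 2 ≤ l.re → U2 r S2 G2 τ2 = l * U3 r S G τ3 → l = 1

variable [Lam]

def gE (φ : ℝ) : ℝ := 1 - lam + He * Real.cos φ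
def gR (φ : ℝ) : ℝ := (fx 1 He φ).1
def gP (φ : ℝ) : ℝ := (fx 1 He φ).2
def gG (σ φ : ℝ) : ℝ :=
  2 * (sm * (6 / 5 * lam) * (gE φ + 2 * lam) + σ * (6 / 5 * lam) * gP φ) /
    ((gE φ + 2 * lam) ^ 2 + (6 / 5 * lam) ^ 2)
def gG2 (σ φ : ℝ) : ℝ := sm * (6 / 5 * lam) - lam * gG σ φ
def gS (σ φ : ℝ) : ℝ := σ * (gE φ * gG σ φ - 2 * gG2 σ φ) / (6 / 5 * lam)
def gS2 (σ φ : ℝ) : ℝ := (gE φ * gS σ φ + σ * (6 / 5 * lam) * gG σ φ) / 2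

def pH : ℝ := Real.arccos ((13 / 5 * lam - 1) / He)
def pM : ℝ := Real.arccos ((7 / 5 * lam - 1) / He)
def pK : ℝ := Real.arccos ((-(3 / 5 * lam) - 1) / He)
def pB : ℝ := 2 * Real.pi - Real.arccos ((-(lam / 2) - 1) / He)

/-- G1: closed forms. -/
def G1Stmt : Prop :=
  ∀ σ : ℝ, σ = 1 ∨ σ = -1 → ∀ φ τ : ℝ,
    w2b σ (fK 1 He) (r2c (fx 1 He φ)) τ = √(gR φ) * U2 (gR φ) (gS2 σ φ) (gG2 σ φ) τ ∧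
    w3b σ (fK 1 He) (r2c (fx 1 He φ)) τ = √(gR φ) * U3 (gR φ) (gS σ φ) (gG σ φ) τ ∧
    t2b σ (fK 1 He) (r2c (fx 1 He φ)) τ = T2 (gR φ) (gS2 σ φ) τ ∧
    t3b σ (fK 1 He) (r2c (fx 1 He φ)) τ = T3 (gR φ) (gS σ φ) τ

/-- G2: identities, continuity, symmetry. -/
def G2Stmt : Prop :=
  (∀ σ : ℝ, σ = 1 ∨ σ = -1 → (∀ φ, Dat (gR φ) (gS σ φ) (gG σ φ) (gS2 σ φ) (gG2 σ φ) (gE φ)) ∧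
    Continuous (gS σ) ∧ Continuous (gG σ) ∧ Continuous (gS2 σ) ∧ Continuous (gG2 σ)) ∧
  Continuous gR ∧ ∀ φ, gP φ = gS2 1 φ + lam * gS 1 φ ∧ gR (-φ) = gR φ ∧ gE (-φ) = gE φ ∧
    gG (-1) (-φ) = gG 1 φ ∧ gG2 (-1) (-φ) = gG2 1 φ ∧ gS (-1) (-φ) = -gS 1 φ ∧
    gS2 (-1) (-φ) = -gS2 1 φ

/-- G3: special points and the two chains. -/
def G3Stmt : Prop :=
  (pH < pM ∧ pM < pK ∧ pK < Real.pi ∧ Real.pi < pB) ∧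
  (gR pH = 2 * sm ^ 2 ∧ gS 1 pH = 8 / 5 * sm ∧ gG 1 pH = 6 / 5 * sm ∧ gS2 1 pH = 2 * lam * sm ∧
    gG2 1 pH = 0) ∧
  (0 < gG 1 pK ∧ gG2 1 pK = 0) ∧
  (0 < gS 1 pM ∧ 0 ≤ gS2 1 pM ∧ gG2 1 pM < 0 ∧
    gR pM ^ 2 ≤ 3 * (gS 1 pM - gS2 1 pM) * (gG 1 pM + gS 1 pM / 2)) ∧
  gG 1 pB < 0 ∧
  (∀ φ ∈ Icc pH pK, 0 < gG 1 φ ∧ gG2 1 φ ≤ 0 ∧ 6 / 5 ≤ gR φ) ∧
  ∀ φ ∈ Icc pK pB, 0 ≤ gG2 1 φ ∧ gS 1 φ ≤ -(8 / 5 * sm) ∧ gE φ < 0 ∧ 0 ≤ gS2 1 φ ∧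
    gS2 1 φ ^ 2 ≤ 41 / 25 * gE φ ^ 2 ∧ 1 ≤ gR φ ∧ gR φ ≤ 31 / 200 + 369 / 200 * sm ^ 2

/-- closeness to the limit family -/
def Near (σ δ sa : ℝ) (w2 w3 : ℝ × ℝ → ℂ) : Prop :=
  ∀ φ, ∀ s ∈ Icc 0 sa, ∃ τ2 τ3 : ℝ, 0 ≤ τ2 ∧ 0 ≤ τ3 ∧ τ2 + τ3 = s ∧
    |T2 (gR φ) (gS2 σ φ) τ2 - T3 (gR φ) (gS σ φ) τ3| ≤ δ ∧
    ‖w2 (φ, s) - √(gR φ) * U2 (gR φ) (gS2 σ φ) (gG2 σ φ) τ2‖ ≤ δ ∧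
    ‖w3 (φ, s) - √(gR φ) * U3 (gR φ) (gS σ φ) (gG σ φ) τ3‖ ≤ δ

/-- PLUS: the region around `0`. -/
def PlusStmt : Prop :=
  ∀ P : Set ℂ, IsCompact P → (∀ ζ ∈ P, Q1 ζ ∧ (ζ.re ≤ 1 ∨ ζ.re ≤ 2 * ζ.im) ∧ ζ ≠ 1) →
    ∃ δ : ℝ, 0 < δ ∧ ∀ w2 w3 : ℝ × ℝ → ℂ, ContinuousOn w2 (univ ×ˢ Icc 0 11) →
      ContinuousOn w3 (univ ×ˢ Icc 0 11) → Near 1 δ 11 w2 w3 →
      ∀ ζ : ℂ, (∀ t ∈ Icc (0 : ℝ) 1, t * ζ ∈ P) →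
        ∃ φ, ∃ s ∈ Icc (0 : ℝ) 11, w3 (φ, s) = ζ * w2 (φ, s)

/-- MINUS: the region around infinity. -/
def MinusStmt : Prop :=
  ∀ P : Set ℂ, IsCompact P → (∀ l ∈ P, l.im ≤ 0 ∧ -2 * l.im ≤ l.re ∧ ‖l‖ ^ 2 ≤ l.re ∧ l ≠ 1) →
    ∃ δ : ℝ, 0 < δ ∧ ∀ w2 w3 : ℝ × ℝ → ℂ, ContinuousOn w2 (univ ×ˢ Icc 0 11) →
      ContinuousOn w3 (univ ×ˢ Icc 0 11) → Near (-1) δ 11 w2 w3 →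
      ∀ l : ℂ, (∀ t ∈ Icc (0 : ℝ) 1, ∃ l' ∈ P, ‖t * l - l'‖ ≤ δ) →
        ∃ φ, ∃ s ∈ Icc (0 : ℝ) 11, w2 (φ, s) = l * w3 (φ, s)

/-- DIR: the directions for `M < 1`. -/
def DirStmt : Prop :=
  ∃ δ γ : ℝ, 0 < δ ∧ 0 < γ ∧ ∀ Mb : ℝ, Mb < 1 → ∃ β : ℝ, 0 < β ∧ ∀ M ∈ Icc (1 - δ) Mb,
    ∃ c p : ℝ → ℂ, Dirs γ β pH pB c p ∧ ∀ φ,
      eb 1 1 (fK M He) (r2c (fx M He φ)) = c φ * p φ ∧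
      eb 1 (-1) (fK M He) (r2c (fx M He φ)) = c φ * conj (p φ) ∧
      eb (-1) (-1) (fK M He) (r2c (fx M He (-φ))) = I * conj (c φ * p φ) ∧
      eb (-1) 1 (fK M He) (r2c (fx M He (-φ))) = I * conj (c φ * conj (p φ)) ∧
      (φ ∈ Icc pH pB → 1 ≤ (fx M He φ).1 ∧ (fx M He φ).1 ≤ 2)

end Pool.Agent.MP_1ba41f_an.S2.W.CV
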